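import Pool.Agent.Y686.CW.Grid

open scoped ENNReal NNReal Topology
open MeasureTheory Filter Set

namespace Pool.Agent.Y686.CW

open Pool.Agent.Helper228.CkInt

/-- step function on the cells of side `s` -/
noncomputable def stepF {d : ℕ} (s : ℝ) (Z : Finset (Fin d → ℤ)) (a : (Fin d → ℤ) → ℝ)
    (x : E d) : ℝ :=
  haveI := Classical.dec (idx s x ∈ Z)
  if idx s x ∈ Z then a (idx s x) else 0

theorem stepF_mem {d : ℕ} {s : ℝ} {Z : Finset (Fin d → ℤ)} {a : (Fin d → ℤ) → ℝ} {x : E d}
    (h : idx s x ∈ Z) : stepF s Z a x = a (idx s x) := by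
  unfold stepF; rw [if_pos h]

theorem stepF_notMem {d : ℕ} {s : ℝ} {Z : Finset (Fin d → ℤ)} {a : (Fin d → ℤ) → ℝ} {x : E d}
    (h : idx s x ∉ Z) : stepF s Z a x = 0 := by
  unfold stepF; rw [if_neg h]

theorem comp_stepF {d : ℕ} {s : ℝ} (hs : 0 < s) {Z : Finset (Fin d → ℤ)} {a : (Fin d → ℤ) → ℝ}
    (F : ℝ → ℝ) (hF : F 0 = 0) (x : E d) :
    F (stepF s Z a x) = ∑ z ∈ Z, (cell s z).indicator (fun _ => F (a z)) x := by
  classical
  by_cases h : idx s x ∈ Z
  · rw [stepF_mem h, Finset.sum_eq_single_of_mem _ h]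
    · rw [Set.indicator_of_mem ((mem_cell_iff hs).2 rfl)]
    · intro z _ hz
      rw [Set.indicator_of_notMem]
      intro h2
      exact hz ((mem_cell_iff hs).1 h2).symm
  · rw [stepF_notMem h, hF]
    refine (Finset.sum_eq_zero (fun z hz => ?_)).symm
    rw [Set.indicator_of_notMem]
    intro h2
    exact h (((mem_cell_iff hs).1 h2) ▸ hz)

theorem volume_cell_ne_top {d : ℕ} {s : ℝ} (hs : 0 < s) (z : Fin d → ℤ) :
    volume (cell s z) ≠ ⊤ := by rw [volume_cell hs]; exact ENNReal.ofReal_ne_top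

theorem comp_stepF_integrable {d : ℕ} {s : ℝ} (hs : 0 < s) {Z : Finset (Fin d → ℤ)}
    {a : (Fin d → ℤ) → ℝ} (F : ℝ → ℝ) (hF : F 0 = 0) :
    Integrable (fun x : E d => F (stepF s Z a x)) := by
  have e : (fun x : E d => F (stepF s Z a x))
      = fun x => ∑ z ∈ Z, (cell s z).indicator (fun _ => F (a z)) x := by
    funext x; exact comp_stepF hs F hF x
  rw [e]
  refine integrable_finsetSum _ (fun z _ => ?_)
  rw [integrable_indicator_iff (measurableSet_cell s z)]
  exact integrableOn_const (volume_cell_ne_top hs z)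

theorem comp_stepF_integral {d : ℕ} {s : ℝ} (hs : 0 < s) {D : Set (E d)}
    {Z : Finset (Fin d → ℤ)} (hZ : ∀ z ∈ Z, ccell s z ⊆ interior D)
    {a : (Fin d → ℤ) → ℝ} (F : ℝ → ℝ) (hF : F 0 = 0) :
    ∫ x in D, F (stepF s Z a x) = s ^ d * ∑ z ∈ Z, F (a z) := by
  have e : (fun x : E d => F (stepF s Z a x))
      = fun x => ∑ z ∈ Z, (cell s z).indicator (fun _ => F (a z)) x := by
    funext x; exact comp_stepF hs F hF x
  rw [e, integral_finsetSum]
  · rw [Finset.mul_sum]
    refine Finset.sum_congr rfl (fun z hz => ?_)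
    rw [setIntegral_indicator (measurableSet_cell s z), setIntegral_const, smul_eq_mul]
    have h1 : D ∩ cell s z = cell s z :=
      Set.inter_eq_right.2 ((cell_subset_ccell s z).trans ((hZ z hz).trans interior_subset))
    rw [h1, measureReal_def, volume_cell hs, ENNReal.toReal_ofReal (by positivity)]
  · intro z _
    refine Integrable.integrableOn ?_
    rw [integrable_indicator_iff (measurableSet_cell s z)]
    exact integrableOn_const (volume_cell_ne_top hs z)

/-- `t ↦ |t|^q` is `q`-Hölder -/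
theorem abs_rpow_sub_le {q : ℝ} (hq0 : 0 < q) (hq1 : q ≤ 1) (x y : ℝ) :
    |(|x| ^ q - |y| ^ q)| ≤ |x - y| ^ q := by
  have key : ∀ x y : ℝ, |x| ^ q ≤ |y| ^ q + |x - y| ^ q := by
    intro x y
    have h1 : |x| ≤ |y| + |x - y| := by
      have := abs_add_le y (x - y)
      rwa [add_sub_cancel] at this
    have h2 : |x| ^ q ≤ (|y| + |x - y|) ^ q := Real.rpow_le_rpow (abs_nonneg _) h1 hq0.le
    have h3 := NNReal.rpow_add_le_add_rpow ‖y‖₊ ‖x - y‖₊ hq0.le hq1
    have h4 : (|y| + |x - y|) ^ q ≤ |y| ^ q + |x - y| ^ q := by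
      have := (NNReal.coe_le_coe.2 h3)
      simpa only [NNReal.coe_rpow, NNReal.coe_add, coe_nnnorm, Real.norm_eq_abs] using this
    exact h2.trans h4
  rw [abs_le]
  constructor
  · have := key y x
    rw [abs_sub_comm y x] at this
    linarith
  · have := key x y
    linarith

/-- splitting of `t^q` -/
theorem rpow_le_split {q t l : ℝ} (hq0 : 0 < q) (hq1 : q ≤ 1) (ht : 0 ≤ t) (hl : 0 < l) :
    t ^ q ≤ l ^ q + l ^ (q - 1) * t := by
  rcases le_total t l with h | h
  · have h1 : t ^ q ≤ l ^ q := Real.rpow_le_rpow ht h hq0.le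
    have h2 : 0 ≤ l ^ (q - 1) * t := mul_nonneg (Real.rpow_nonneg hl.le _) ht
    linarith
  · have ht0 : 0 < t := hl.trans_le h
    have h1 : t ^ q = t ^ (q - 1) * t := by
      rw [Real.rpow_sub ht0, Real.rpow_one, div_mul_cancel₀ _ ht0.ne']
    have h2 : t ^ (q - 1) ≤ l ^ (q - 1) := Real.rpow_le_rpow_of_nonpos hl h (by linarith)
    rw [h1]
    have h3 : 0 ≤ l ^ q := Real.rpow_nonneg hl.le _
    have h4 := mul_le_mul_of_nonneg_right h2 ht0.le
    linarith

theorem finite_vol {d : ℕ} {D : Set (E d)} (hb : Bornology.IsBounded D) : volume D < ⊤ :=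
  hb.measure_lt_top

theorem rpow_integrableOn {d : ℕ} {D : Set (E d)} (hb : Bornology.IsBounded D) {f : E d → ℝ}
    (hf : IntegrableOn f D) {q : ℝ} (hq0 : 0 < q) (hq1 : q ≤ 1) :
    IntegrableOn (fun x => |f x| ^ q) D := by
  have h1 : IntegrableOn (fun x => (1:ℝ) + |f x|) D :=
    (integrableOn_const (finite_vol hb).ne).add hf.abs
  refine Integrable.mono' h1 ?_ (Filter.Eventually.of_forall (fun x => ?_))
  · exact (hf.abs.aestronglyMeasurable.aemeasurable.pow_const q).aestronglyMeasurable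
  · rw [Real.norm_of_nonneg (Real.rpow_nonneg (abs_nonneg _) _)]
    have := rpow_le_split hq0 hq1 (abs_nonneg (f x)) one_pos
    simpa using this

/-- `L^1` approximation by step functions on core cells -/
theorem approx_one {d : ℕ} {D : Set (E d)} (hb : Bornology.IsBounded D)
    (hJ : volume (frontier D) = 0) {ρ : E d → ℝ} (hρ : IntegrableOn ρ D) {ε : ℝ} (hε : 0 < ε) :
    ∃ s : ℝ, 0 < s ∧ s ≤ 1 ∧ ∃ Z : Finset (Fin d → ℤ), (∀ z ∈ Z, ccell s z ⊆ interior D) ∧
      ∃ a : (Fin d → ℤ) → ℝ, ∫ x in D, |ρ x - stepF s Z a x| ≤ ε := by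
  classical
  have hρ' : Integrable ((interior D).indicator ρ) := by
    rw [integrable_indicator_iff isOpen_interior.measurableSet]
    exact hρ.mono_set interior_subset
  obtain ⟨g, hgc, hg1, hg2, hg3⟩ := hρ'.exists_hasCompactSupport_integral_sub_le
    (show 0 < ε / 3 by positivity)
  obtain ⟨M, hM⟩ := hg2.bounded_above_of_compact_support hgc
  have hM0 : 0 ≤ M := (norm_nonneg _).trans (hM 0)
  set V : ℝ := (volume (interior D)).toReal with hV
  have hV0 : 0 ≤ V := ENNReal.toReal_nonneg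
  have hVfin : volume (interior D) < ⊤ := (hb.subset interior_subset).measure_lt_top
  -- uniform continuity
  have huc : UniformContinuous g := hgc.uniformContinuous_of_continuous hg2
  obtain ⟨δ, hδ, hδ2⟩ := Metric.uniformContinuous_iff.1 huc (ε / (3 * (V + 1))) (by positivity)
  -- choice of `s`
  obtain ⟨s, hs0, hs1, hsδ, hsτ⟩ : ∃ s : ℝ, 0 < s ∧ s ≤ 1 ∧ s < δ ∧ tau D s * M ≤ ε / 3 := by
    have h1 := (tau_tendsto hb hJ).mul_const M
    rw [zero_mul] at h1
    have h2 : ∀ᶠ s : ℝ in 𝓝 0, tau D s * M < ε / 3 := h1.eventually (gt_mem_nhds (by positivity))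
    have h3 : ∀ᶠ s : ℝ in 𝓝 0, s < min δ 1 := gt_mem_nhds (by positivity)
    have h4 : ∀ᶠ s : ℝ in 𝓝[>] 0, tau D s * M < ε / 3 ∧ s < min δ 1 :=
      (h2.and h3).filter_mono nhdsWithin_le_nhds
    obtain ⟨s, ⟨h5, h6⟩, h7⟩ := (h4.and self_mem_nhdsWithin).exists
    exact ⟨s, h7, (h6.trans_le (min_le_right _ _)).le, h6.trans_le (min_le_left _ _), h5.le⟩
  set Z := (core_finite hs0 hb).toFinset with hZ
  have hZmem : ∀ z, z ∈ Z ↔ ccell s z ⊆ interior D := fun z => by
    rw [hZ, Set.Finite.mem_toFinset]; rfl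
  refine ⟨s, hs0, hs1, Z, fun z hz => (hZmem z).1 hz, fun z => g (fun i => s * (z i : ℝ)), ?_⟩
  set a : (Fin d → ℤ) → ℝ := fun z => g (fun i => s * (z i : ℝ)) with ha
  have e1 : ∫ x in D, |ρ x - stepF s Z a x| = ∫ x in interior D, |ρ x - stepF s Z a x| :=
    setIntegral_congr_set (ae_interior hJ)
  rw [e1]
  have hstep : Integrable (fun x : E d => stepF s Z a x) :=
    comp_stepF_integrable hs0 (fun t => t) rfl
  have hρi : IntegrableOn ρ (interior D) := hρ.mono_set interior_subset
  -- pointwise bound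
  have hpt : ∀ x ∈ interior D, |ρ x - stepF s Z a x| ≤ |(interior D).indicator ρ x - g x|
      + (ε / (3 * (V + 1)) + (Metric.cthickening s (frontier D)).indicator (fun _ => M) x) := by
    intro x hx
    have h1 : (interior D).indicator ρ x = ρ x := Set.indicator_of_mem hx _
    rw [h1]
    have h2 : |g x - stepF s Z a x| ≤ ε / (3 * (V + 1))
        + (Metric.cthickening s (frontier D)).indicator (fun _ => M) x := by
      by_cases h : idx s x ∈ Z
      · rw [stepF_mem h]
        have h3 : dist x (fun i => s * (idx s x i : ℝ)) < δ :=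
          (dist_ccell hs0 (cell_subset_ccell _ _ ((mem_cell_iff hs0).2 rfl))
            (cell_subset_ccell _ _ (corner_mem hs0 _))).trans_lt hsδ
        have h4 := hδ2 h3
        rw [Real.dist_eq] at h4
        have h5 : 0 ≤ (Metric.cthickening s (frontier D)).indicator (fun _ => M) x :=
          Set.indicator_nonneg (fun _ _ => hM0) x
        have h6 : |g x - a (idx s x)| < ε / (3 * (V + 1)) := h4
        linarith
      · rw [stepF_notMem h, sub_zero]
        have hxc : x ∈ Metric.cthickening s (frontier D) :=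
          uncovered hs0 hx (fun h' => h ((hZmem _).2 h'))
        rw [Set.indicator_of_mem hxc]
        have h5 : |g x| ≤ M := hM x
        have : 0 < ε / (3 * (V + 1)) := by positivity
        linarith
    have h7 : ρ x - stepF s Z a x = (ρ x - g x) + (g x - stepF s Z a x) := by ring
    rw [h7]
    exact (abs_add_le _ _).trans (add_le_add_right h2 _)
  have hthm : MeasurableSet (Metric.cthickening s (frontier D)) :=
    Metric.isClosed_cthickening.measurableSet
  have hI1 : Integrable (fun x => |(interior D).indicator ρ x - g x|) := (hρ'.sub hg3).abs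
  have hI2 : IntegrableOn (fun _ : E d => ε / (3 * (V + 1))) (interior D) :=
    integrableOn_const hVfin.ne
  have hI3 : Integrable ((Metric.cthickening s (frontier D)).indicator (fun _ => M)) := by
    rw [integrable_indicator_iff hthm]
    exact integrableOn_const (thick_lt_top hb s).ne
  have h1 : ∫ x in interior D, |ρ x - stepF s Z a x| ≤ ∫ x in interior D,
      (|(interior D).indicator ρ x - g x|
      + (ε / (3 * (V + 1)) + (Metric.cthickening s (frontier D)).indicator (fun _ => M) x)) := by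
    refine setIntegral_mono_on (hρi.sub hstep.integrableOn).abs
      (hI1.integrableOn.add (hI2.add hI3.integrableOn)) isOpen_interior.measurableSet hpt
  refine h1.trans ?_
  have hJ1 : Integrable (fun x => |(interior D).indicator ρ x - g x|)
    (volume.restrict (interior D)) := hI1.integrableOn
  have hJ2 : Integrable (fun _ : E d => ε / (3 * (V + 1))) (volume.restrict (interior D)) := hI2
  have hJ3 : Integrable ((Metric.cthickening s (frontier D)).indicator (fun _ => M))
    (volume.restrict (interior D)) := hI3.integrableOn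
  have hJ23 : Integrable (fun x => ε / (3 * (V + 1))
      + (Metric.cthickening s (frontier D)).indicator (fun _ => M) x)
    (volume.restrict (interior D)) := hJ2.add hJ3
  rw [integral_add hJ1 hJ23, integral_add hJ2 hJ3]
  have h2 : ∫ x in interior D, |(interior D).indicator ρ x - g x| ≤ ε / 3 := by
    refine (setIntegral_le_integral hI1 (Filter.Eventually.of_forall (fun x => abs_nonneg _))).trans ?_
    exact hg1
  have h3 : ∫ x in interior D, ε / (3 * (V + 1)) ≤ ε / 3 := by
    rw [setIntegral_const, smul_eq_mul, measureReal_def, ← hV]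
    have : V * (ε / (3 * (V + 1))) = (V / (V + 1)) * (ε / 3) := by field_simp
    rw [this]
    have h4 : V / (V + 1) ≤ 1 := by rw [div_le_one (by positivity)]; linarith
    calc V / (V + 1) * (ε / 3) ≤ 1 * (ε / 3) := by gcongr
      _ = _ := one_mul _
  have h4 : ∫ x in interior D, (Metric.cthickening s (frontier D)).indicator (fun _ => M) x
      ≤ ε / 3 := by
    refine (setIntegral_le_integral hI3 (Filter.Eventually.of_forall
      (fun x => Set.indicator_nonneg (fun _ _ => hM0) x))).trans ?_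
    rw [integral_indicator hthm, setIntegral_const, smul_eq_mul, measureReal_def]
    exact hsτ
  linarith

/-- step function approximation, both for `∫|ρ|` and for `∫|ρ|^q` -/
theorem approx {d : ℕ} {D : Set (E d)} (hb : Bornology.IsBounded D)
    (hJ : volume (frontier D) = 0) {ρ : E d → ℝ} (hρ : IntegrableOn ρ D) {q : ℝ} (hq0 : 0 < q)
    (hq1 : q ≤ 1) {ε : ℝ} (hε : 0 < ε) :
    ∃ s : ℝ, 0 < s ∧ s ≤ 1 ∧ ∃ Z : Finset (Fin d → ℤ), (∀ z ∈ Z, ccell s z ⊆ interior D) ∧
      ∃ a : (Fin d → ℤ) → ℝ, ∫ x in D, |ρ x - stepF s Z a x| ≤ ε ∧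
        |(∫ x in D, |ρ x| ^ q) - s ^ d * ∑ z ∈ Z, |a z| ^ q| ≤ ε := by
  set V : ℝ := (volume D).toReal with hV
  have hV0 : 0 ≤ V := ENNReal.toReal_nonneg
  -- choose `l`
  obtain ⟨l, hl, hl2⟩ : ∃ l : ℝ, 0 < l ∧ l ^ q * V ≤ ε / 2 := by
    have h1 : Tendsto (fun l : ℝ => l ^ q * V) (𝓝 0) (𝓝 (0 ^ q * V)) :=
      (Tendsto.rpow_const tendsto_id (Or.inr hq0.le)).mul_const V
    rw [Real.zero_rpow hq0.ne', zero_mul] at h1
    have h2 : ∀ᶠ l : ℝ in 𝓝[>] 0, l ^ q * V < ε / 2 :=
      (h1.eventually (gt_mem_nhds (by positivity))).filter_mono nhdsWithin_le_nhds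
    obtain ⟨l, h3, h4⟩ := (h2.and self_mem_nhdsWithin).exists
    exact ⟨l, h4, h3.le⟩
  have hlq : 0 < l ^ (q - 1) := Real.rpow_pos_of_pos hl _
  set ε' : ℝ := min ε (ε / 2 / l ^ (q - 1)) with hε'
  have hε'0 : 0 < ε' := lt_min hε (by positivity)
  obtain ⟨s, hs, hs1, Z, hZ, a, ha⟩ := approx_one hb hJ hρ hε'0
  refine ⟨s, hs, hs1, Z, hZ, a, ha.trans (min_le_left _ _), ?_⟩
  rw [← comp_stepF_integral hs hZ (fun t => |t| ^ q) (by
    simp only [abs_zero]; exact Real.zero_rpow hq0.ne')]
  have hstep : IntegrableOn (fun x : E d => stepF s Z a x) D :=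
    (comp_stepF_integrable hs (fun t => t) rfl).integrableOn
  have hI1 := rpow_integrableOn hb hρ hq0 hq1
  have hI2 := rpow_integrableOn hb hstep hq0 hq1
  have hI3 : IntegrableOn (fun x => |ρ x - stepF s Z a x|) D := (hρ.sub hstep).abs
  rw [← integral_sub hI1 hI2]
  refine (abs_integral_le_integral_abs).trans ?_
  have h1 : ∫ x in D, |(|ρ x| ^ q - |stepF s Z a x| ^ q)|
      ≤ ∫ x in D, (l ^ q + l ^ (q - 1) * |ρ x - stepF s Z a x|) := by
    refine setIntegral_mono (hI1.sub hI2).abs
      ((integrableOn_const (finite_vol hb).ne).add (hI3.const_mul _)) (fun x => ?_)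
    exact (abs_rpow_sub_le hq0 hq1 _ _).trans (rpow_le_split hq0 hq1 (abs_nonneg _) hl)
  refine h1.trans ?_
  have hc1 : Integrable (fun _ : E d => l ^ q) (volume.restrict D) :=
    integrableOn_const (finite_vol hb).ne
  have hc2 : Integrable (fun x => l ^ (q - 1) * |ρ x - stepF s Z a x|) (volume.restrict D) :=
    hI3.const_mul _
  rw [integral_add hc1 hc2,
    integral_const_mul, setIntegral_const, smul_eq_mul, measureReal_def, ← hV]
  have h2 : l ^ (q - 1) * ∫ x in D, |ρ x - stepF s Z a x| ≤ ε / 2 := by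
    have h3 := ha.trans (min_le_right _ _)
    rw [le_div_iff₀ hlq] at h3
    linarith
  linarith

end Pool.Agent.Y686.CW
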