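import Pool.Agent.Helper228.CkInt.O

open scoped ENNReal NNReal Topology
open MeasureTheory Filter Set

namespace Pool.Agent.Y686.CW

open Pool.Agent.Helper228.CkInt

/-- The `n`-th minimal worst case error of the weighted integration problem `f ↦ ∫_D ρ f` for the
class `F`: infimum over points `x 0, …, x (n-1)` of `D` and over all maps `φ : ℝ^n → ℝ` of the
supremum over `f ∈ F` of `|∫_D ρ f - φ (f (x 0), …, f (x (n-1)))|`. -/
noncomputable def minErrorW {d : ℕ} (D : Set (Fin d → ℝ)) (F : Set ((Fin d → ℝ) → ℝ))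
    (ρ : (Fin d → ℝ) → ℝ) (n : ℕ) : ℝ≥0∞ :=
  ⨅ (x : Fin n → D) (φ : (Fin n → ℝ) → ℝ), ⨆ f ∈ F,
    ENNReal.ofReal |(∫ y in D, ρ y * f y) - φ (fun i => f (x i))|

/-- The scaled error of the weighted problem for the class `F^k_d(D)`. -/
noncomputable def scaledErrorW {d : ℕ} (k : ℕ) (D : Set (Fin d → ℝ)) (ρ : (Fin d → ℝ) → ℝ)
    (n : ℕ) : ℝ :=
  (minErrorW D (smoothClass k D) ρ n).toReal * (n : ℝ) ^ ((k : ℝ) / d)

/-- Local John condition (twisted interior cone condition): there are `r, c > 0` such that for all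
`0 < t ≤ r` every point `x` of the interior of `D` can be joined inside the interior of `D`, by a
polygonal path of length at most `t`, to the centre of a ball of radius `c t` that is contained in
the interior of `D`. -/
def LocalJohn {d : ℕ} (D : Set (Fin d → ℝ)) : Prop :=
  ∃ r > 0, ∃ c > 0, ∀ x ∈ interior D, ∀ t, 0 < t → t ≤ r →
    ∃ (m : ℕ) (y : ℕ → Fin d → ℝ), y 0 = x ∧
      (∀ i < m, segment ℝ (y i) (y (i + 1)) ⊆ interior D) ∧
      ∑ i ∈ Finset.range m, dist (y i) (y (i + 1)) ≤ t ∧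
      Metric.closedBall (y m) (c * t) ⊆ interior D

/-- `D` is bounded and Jordan measurable, with an interior point. -/
def JordanDomain {d : ℕ} (D : Set (Fin d → ℝ)) : Prop :=
  Bornology.IsBounded D ∧ volume (frontier D) = 0 ∧ (interior D).Nonempty

/-- The functional `(∫_D |ρ|^(d/(d+k)))^((d+k)/d)` of the weight. -/
noncomputable def wfun {d : ℕ} (k : ℕ) (D : Set (Fin d → ℝ)) (ρ : (Fin d → ℝ) → ℝ) : ℝ :=
  (∫ y in D, |ρ y| ^ ((d : ℝ) / (d + k))) ^ (((d : ℝ) + k) / d)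

theorem minErrorW_one {d : ℕ} (D : Set (Fin d → ℝ)) (F : Set ((Fin d → ℝ) → ℝ)) (n : ℕ) :
    minErrorW D F (fun _ => 1) n = minError D F n := by
  unfold minErrorW minError
  simp only [one_mul]

theorem localJohn_of_cone {d : ℕ} {D : Set (Fin d → ℝ)} (h : InteriorCone D) : LocalJohn D := by
  obtain ⟨r, hr, c, hc, h⟩ := h
  refine ⟨r, hr, c, hc, fun x hx t ht htr => ?_⟩
  obtain ⟨v, hv, hball⟩ := h x hx
  refine ⟨1, fun i => if i = 0 then x else x + t • v, by simp, ?_, ?_, ?_⟩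
  · intro i hi
    have hi0 : i = 0 := by omega
    subst hi0
    simp only [if_true, zero_add, one_ne_zero, if_false]
    intro z hz
    rw [segment_eq_image'] at hz
    obtain ⟨θ, hθ, rfl⟩ := hz
    rcases eq_or_lt_of_le hθ.1 with h0 | h0
    · simp only [← h0]; simpa using hx
    · have e : x + θ • (x + t • v - x) = x + (θ * t) • v := by
        rw [add_sub_cancel_left, smul_smul]
      simp only [e]
      refine hball (θ * t) (by positivity) ?_ (Metric.mem_closedBall_self (by positivity))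
      nlinarith [hθ.2]
  · simp only [Finset.sum_range_one, if_true, zero_add, one_ne_zero, if_false]
    rw [dist_eq_norm, sub_add_cancel_left, norm_neg, norm_smul, hv, mul_one,
      Real.norm_of_nonneg ht.le]
  · simpa using hball t ht htr

theorem lower_radiusW {d : ℕ} {D : Set (E d)} {F : Set (E d → ℝ)} {ρ : E d → ℝ} {n : ℕ} {b : ℝ}
    (h : ∀ x : Fin n → D, ∃ f ∈ F, (fun x => - f x) ∈ F ∧ (∀ i, f (x i) = 0) ∧
      b ≤ ∫ y in D, ρ y * f y) : ENNReal.ofReal b ≤ minErrorW D F ρ n := by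
  refine le_iInf (fun x => le_iInf (fun φ => ?_))
  obtain ⟨f, hf, hf', h0, hb⟩ := h x
  have e1 : (fun i => f (x i)) = fun _ => (0:ℝ) := by funext i; exact h0 i
  have e2 : (fun i => - f (x i)) = fun _ => (0:ℝ) := by funext i; rw [h0 i, neg_zero]
  have h1 := le_iSup₂ (f := fun (f : E d → ℝ) (_ : f ∈ F) =>
    ENNReal.ofReal |(∫ y in D, ρ y * f y) - φ (fun i => f (x i))|) f hf
  have h2 := le_iSup₂ (f := fun (f : E d → ℝ) (_ : f ∈ F) =>
    ENNReal.ofReal |(∫ y in D, ρ y * f y) - φ (fun i => f (x i))|) (fun x => - f x) hf'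
  rw [e1] at h1
  have e3 : ∫ y in D, ρ y * (- f y) = - ∫ y in D, ρ y * f y := by
    rw [← integral_neg]; congr 1; funext y; ring
  rw [e2, e3] at h2
  rcases le_total 0 (φ fun _ => 0) with h3 | h3
  · refine le_trans (ENNReal.ofReal_le_ofReal ?_) h2
    have : (∫ y in D, ρ y * f y) ≤ |(-∫ y in D, ρ y * f y) - φ fun _ => 0| := by
      rw [abs_sub_comm]
      refine le_trans ?_ (le_abs_self _)
      linarith
    linarith
  · refine le_trans (ENNReal.ofReal_le_ofReal ?_) h1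
    have : (∫ y in D, ρ y * f y) ≤ |(∫ y in D, ρ y * f y) - φ fun _ => 0| := by
      refine le_trans ?_ (le_abs_self _)
      linarith
    linarith

theorem upper_radiusW {d : ℕ} {D : Set (E d)} {F : Set (E d → ℝ)} {ρ : E d → ℝ} {n : ℕ} {B : ℝ}
    (hD : D.Nonempty) (hint : ∀ f ∈ F, IntegrableOn (fun y => ρ y * f y) D)
    (hF : ∀ f ∈ F, ∀ g ∈ F, (fun x => (f x - g x) / 2) ∈ F)
    (P : Finset (E d)) (hP : P.card ≤ n) (hPD : ∀ x ∈ P, x ∈ D)
    (h : ∀ f ∈ F, (∀ x ∈ P, f x = 0) → ∫ y in D, ρ y * f y ≤ B) :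
    minErrorW D F ρ n ≤ ENNReal.ofReal B := by
  classical
  obtain ⟨x0, hx0⟩ := hD
  -- an `n`-tuple covering `P`
  obtain ⟨x, hx⟩ : ∃ x : Fin n → D, ∀ p ∈ P, ∃ i, (x i : E d) = p := by
    let e := P.equivFin
    refine ⟨fun i => if hi : (i : ℕ) < P.card then
      ⟨(e.symm ⟨i, hi⟩ : E d), hPD _ (e.symm ⟨i, hi⟩).2⟩ else ⟨x0, hx0⟩, fun p hp => ?_⟩
    refine ⟨⟨(e ⟨p, hp⟩ : ℕ), lt_of_lt_of_le (e ⟨p, hp⟩).2 hP⟩, ?_⟩
    simp
  let V : (Fin n → ℝ) → Set ℝ := fun y =>
    {t | ∃ f ∈ F, (fun i => f (x i)) = y ∧ t = ∫ y in D, ρ y * f y}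
  have hV : ∀ y, ∀ s ∈ V y, ∀ t ∈ V y, s - t ≤ 2 * B := by
    rintro y s ⟨f, hf, hfy, rfl⟩ t ⟨g, hg, hgy, rfl⟩
    have h1 := h _ (hF f hf g hg) (fun p hp => by
      obtain ⟨i, hi⟩ := hx p hp
      have := congrFun (hfy.trans hgy.symm) i
      simp only [hi] at this
      rw [this]; simp)
    have h2 : ∫ y in D, ρ y * ((f y - g y) / 2)
        = ((∫ y in D, ρ y * f y) - ∫ y in D, ρ y * g y) / 2 := by
      rw [← integral_sub (hint f hf) (hint g hg), ← integral_div]
      congr 1; funext y; ring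
    rw [h2] at h1
    linarith
  refine iInf_le_of_le x (iInf_le_of_le (fun y => (sSup (V y) + sInf (V y)) / 2) ?_)
  refine iSup₂_le (fun f hf => ENNReal.ofReal_le_ofReal ?_)
  set y := fun i => f (x i) with hy
  have hmem : (∫ y in D, ρ y * f y) ∈ V y := ⟨f, hf, rfl, rfl⟩
  have hba : BddAbove (V y) := ⟨(∫ y in D, ρ y * f y) + 2 * B, fun s hs => by
    have := hV y s hs _ hmem; linarith⟩
  have hbb : BddBelow (V y) := ⟨(∫ y in D, ρ y * f y) - 2 * B, fun s hs => by
    have := hV y _ hmem s hs; linarith⟩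
  have h1 : (∫ y in D, ρ y * f y) ≤ sSup (V y) := le_csSup hba hmem
  have h2 : sInf (V y) ≤ ∫ y in D, ρ y * f y := csInf_le hbb hmem
  have h3 : sSup (V y) ≤ sInf (V y) + 2 * B := by
    refine csSup_le ⟨_, hmem⟩ (fun s hs => ?_)
    have : s - 2 * B ≤ sInf (V y) := le_csInf ⟨_, hmem⟩ (fun t ht => by
      have := hV y s hs t ht; linarith)
    linarith
  rw [abs_le]
  constructor <;> linarith

/-- Hölder's inequality in the form needed for the allocation of points -/
theorem holder_alloc {ι : Type*} (Z : Finset ι) {A t : ι → ℝ} {p T : ℝ} (hp : 0 < p)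
    (hA : ∀ z ∈ Z, 0 ≤ A z) (ht : ∀ z ∈ Z, 0 < t z) (hT : 0 < T) (hsum : ∑ z ∈ Z, t z ≤ T) :
    (∑ z ∈ Z, A z ^ (1 / (1 + p))) ^ (1 + p) * T ^ (-p) ≤ ∑ z ∈ Z, A z * (t z) ^ (-p) := by
  set S : ℝ := ∑ z ∈ Z, A z ^ (1 / (1 + p)) with hS
  have hp1 : 0 < 1 + p := by linarith
  have hS0 : 0 ≤ S := Finset.sum_nonneg (fun z hz => Real.rpow_nonneg (hA z hz) _)
  rcases eq_or_lt_of_le hS0 with h0 | hSpos
  · rw [← h0, Real.zero_rpow hp1.ne', zero_mul]
    exact Finset.sum_nonneg (fun z hz => mul_nonneg (hA z hz) (Real.rpow_nonneg (ht z hz).le _))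
  -- pointwise tangent inequality
  set μ : ℝ := T / S with hμ
  have hμ0 : 0 < μ := div_pos hT hSpos
  have key : ∀ z ∈ Z, (1 + p) * (A z ^ (1 / (1 + p)) * μ ^ (-p)) - p * μ ^ (-p - 1) * t z
      ≤ A z * (t z) ^ (-p) := by
    intro z hz
    rcases eq_or_lt_of_le (hA z hz) with hAz | hAz
    · rw [← hAz, Real.zero_rpow (by positivity), zero_mul, mul_zero, zero_mul]
      have : 0 ≤ p * μ ^ (-p - 1) * t z := by
        have := ht z hz
        positivity
      linarith
    · set a := A z ^ (1 / (1 + p)) with ha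
      have ha0 : 0 < a := Real.rpow_pos_of_pos hAz _
      have hAa : A z = a ^ (1 + p) := by
        rw [ha, ← Real.rpow_mul hAz.le, one_div, inv_mul_cancel₀ hp1.ne', Real.rpow_one]
      have htz := ht z hz
      have hu : 0 < t z / (μ * a) := by positivity
      -- Bernoulli
      have hB : 1 + (-p) * (t z / (μ * a) - 1) ≤ (t z / (μ * a)) ^ (-p) := by
        have h2 := Real.add_one_le_exp ((-p) * Real.log (t z / (μ * a)))
        have h3 : (t z / (μ * a)) ^ (-p) = Real.exp ((-p) * Real.log (t z / (μ * a))) := by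
          rw [Real.rpow_def_of_pos hu, mul_comm]
        have h4 := Real.log_le_sub_one_of_pos hu
        rw [h3]
        nlinarith
      have e1 : (t z) ^ (-p) = (μ * a) ^ (-p) * (t z / (μ * a)) ^ (-p) := by
        rw [← Real.mul_rpow (by positivity) hu.le, mul_div_cancel₀]
        positivity
      have e2 : A z * (μ * a) ^ (-p) = a * μ ^ (-p) := by
        rw [hAa, Real.mul_rpow hμ0.le ha0.le, Real.rpow_add ha0, Real.rpow_one,
          Real.rpow_neg ha0.le]
        have : a ^ p ≠ 0 := (Real.rpow_pos_of_pos ha0 p).ne'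
        field_simp
      have e3 : μ ^ (-p - 1) = μ ^ (-p) / μ := by
        rw [Real.rpow_sub hμ0, Real.rpow_one]
      rw [e1, ← mul_assoc (A z), e2, e3]
      have h5 : 0 < a * μ ^ (-p) := mul_pos ha0 (Real.rpow_pos_of_pos hμ0 _)
      have h6 := mul_le_mul_of_nonneg_left hB h5.le
      refine le_trans (le_of_eq ?_) h6
      field_simp
      ring
  have hsum2 := Finset.sum_le_sum key
  rw [Finset.sum_sub_distrib, ← Finset.mul_sum, ← Finset.sum_mul, ← Finset.mul_sum, ← hS] at hsum2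
  refine le_trans ?_ hsum2
  have e1 : S ^ (1 + p) * T ^ (-p) = S * μ ^ (-p) := by
    rw [hμ, Real.div_rpow hT.le hSpos.le, Real.rpow_add hSpos, Real.rpow_one,
      Real.rpow_neg hSpos.le]
    have : S ^ p ≠ 0 := (Real.rpow_pos_of_pos hSpos p).ne'
    field_simp
  have e2 : μ ^ (-p - 1) * T = μ ^ (-p) * S := by
    rw [Real.rpow_sub hμ0, Real.rpow_one, hμ]
    field_simp
  rw [e1]
  have h7 : p * μ ^ (-p - 1) * ∑ z ∈ Z, t z ≤ p * (μ ^ (-p) * S) := by
    rw [← e2, mul_assoc]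
    have : 0 ≤ μ ^ (-p - 1) := Real.rpow_nonneg hμ0.le _
    gcongr
  nlinarith

end Pool.Agent.Y686.CW
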