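import Pool.Agent.Y686.CW.Defs

open scoped ENNReal NNReal Topology
open MeasureTheory Filter Set

namespace Pool.Agent.Y686.CW

open Pool.Agent.Helper228.CkInt

/-- transport of smallness along a polygonal path -/
theorem chain_small {d k : ℕ} {U : Set (E d)} (hU : IsOpen U)
    {f : E d → ℝ} (hf : ContDiffOn ℝ k f U)
    (hk : ∀ x ∈ U, ∀ j : Fin k → Fin d,
      |iteratedFDeriv ℝ k f x (fun i => Pi.single (j i) 1)| ≤ 1)
    (m : ℕ) (y : ℕ → E d) (hseg : ∀ i < m, segment ℝ (y i) (y (i + 1)) ⊆ U)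
    {a : ℝ} (ha : 0 ≤ a)
    (hya : ∀ l ≤ k, ‖iteratedFDeriv ℝ l f (y m)‖ ≤ (d:ℝ)^k * a^(k-l)) :
    ∀ l ≤ k, ‖iteratedFDeriv ℝ l f (y 0)‖ ≤
      (d:ℝ)^k * (a + ∑ i ∈ Finset.range m, dist (y i) (y (i + 1)))^(k-l) := by
  induction m generalizing a with
  | zero => intro l hl; simpa using hya l hl
  | succ m ih =>
    intro l hl
    have h1 : ∀ l ≤ k, ‖iteratedFDeriv ℝ l f (y m)‖
        ≤ (d:ℝ)^k * (a + dist (y m) (y (m + 1)))^(k-l) := by
      intro l hl
      refine convex_small hU hf hk (convex_segment (y m) (y (m + 1))) (hseg m (Nat.lt_succ_self m))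
        (right_mem_segment ℝ _ _) (a := a) (r := dist (y m) (y (m + 1))) ha dist_nonneg hya
        (fun z hz => ?_) hl (left_mem_segment ℝ _ _)
      rw [← dist_eq_norm]
      have := dist_add_dist_of_mem_segment hz
      linarith [dist_nonneg (x := y m) (y := z)]
    have h2 := ih (fun i hi => hseg i (Nat.lt_succ_of_lt hi)) (add_nonneg ha dist_nonneg) h1 l hl
    rw [Finset.sum_range_succ]
    refine h2.trans (le_of_eq ?_)
    congr 2; ring

/-- indices of the background grid -/
def gridIdx {d : ℕ} (D : Set (E d)) (h : ℝ) : Set (Fin d → ℤ) :=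
  {a | h • zv a ∈ interior D}

theorem gridIdx_finite {d : ℕ} {D : Set (E d)} (hb : Bornology.IsBounded D) {h : ℝ}
    (hh : 0 < h) : (gridIdx D h).Finite :=
  (finite_cells hh hb).subset (fun a ha => ⟨_, smul_zv_mem_cell hh a, interior_subset ha⟩)

theorem gridIdx_card {d : ℕ} {D : Set (E d)} (hb : Bornology.IsBounded D) :
    ∃ V : ℝ, 0 < V ∧ ∀ (h : ℝ) (hh : 0 < h), h ≤ 1 →
      ((gridIdx_finite hb hh).toFinset.card : ℝ) * h ^ d ≤ V := by
  have hW : volume (Metric.cthickening 1 D) < ⊤ := hb.cthickening.measure_lt_top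
  refine ⟨(volume (Metric.cthickening 1 D)).toReal + 1,
    add_pos_of_nonneg_of_pos ENNReal.toReal_nonneg zero_lt_one, fun h hh hh1 => ?_⟩
  refine card_mul_le hh _ (by positivity) (W := Metric.cthickening 1 D) ?_ ?_
  · rw [ENNReal.ofReal_add ENNReal.toReal_nonneg zero_le_one, ENNReal.ofReal_toReal hW.ne]
    exact le_self_add
  · intro a ha x hx
    rw [Set.Finite.mem_toFinset] at ha
    have h1 : dist x (h • zv a) ≤ 1 := (dist_ccell hh (cell_subset_ccell _ _ hx)
      (cell_subset_ccell _ _ (smul_zv_mem_cell hh a))).trans hh1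
    exact Metric.mem_cthickening_of_dist_le x _ _ _ (interior_subset ha) h1

/-- a function of the class that vanishes on the background grid is small everywhere -/
theorem background_small {d k : ℕ} (hd : 1 ≤ d) (hk1 : 1 ≤ k) {D : Set (E d)} {r c : ℝ}
    (hc : 0 < c)
    (hcone : ∀ x ∈ interior D, ∀ t, 0 < t → t ≤ r →
      ∃ (m : ℕ) (y : ℕ → E d), y 0 = x ∧
        (∀ i < m, segment ℝ (y i) (y (i + 1)) ⊆ interior D) ∧
        ∑ i ∈ Finset.range m, dist (y i) (y (i + 1)) ≤ t ∧
        Metric.closedBall (y m) (c * t) ⊆ interior D)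
    {h : ℝ} (hh : 0 < h) (h1 : k * h / c ≤ r)
    {f : E d → ℝ} (hf : f ∈ smoothClass k D) (hz : ∀ a ∈ gridIdx D h, f (h • zv a) = 0)
    {x : E d} (hx : x ∈ interior D) {l : ℕ} (hl : l ≤ k) :
    ‖iteratedFDeriv ℝ l f x‖ ≤ (d:ℝ)^k * (((d:ℝ)^k * k + k / c) * h)^(k-l) := by
  have hk0 : (1:ℝ) ≤ k := by exact_mod_cast hk1
  set t : ℝ := k * h / c with ht
  have ht0 : 0 < t := by positivity
  have hct : c * t = k * h := by rw [ht]; field_simp
  obtain ⟨m, y, hy0, hseg, hlen, hB⟩ := hcone x hx t ht0 h1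
  rw [hct] at hB
  -- block around `y m`
  set a : Fin d → ℤ := idx h (y m) with ha
  have hya : y m ∈ cell h a := (mem_cell_iff hh).2 rfl
  have hyb : y m ∈ Icc (h • zv a) (h • zv a + fun _ => k * h) := by
    refine ⟨fun i => (hya i).1, fun i => ?_⟩
    have := (hya i).2
    simp only [Pi.add_apply, Pi.smul_apply, smul_eq_mul, zv]
    nlinarith
  have hdist : ∀ b ∈ Icc (h • zv a) (h • zv a + fun _ => k * h), dist b (y m) ≤ k * h := by
    intro b hb
    rw [dist_pi_le_iff (by positivity)]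
    intro i
    rw [Real.dist_eq, abs_le]
    have a1 := hb.1 i
    have a2 := hb.2 i
    have a3 := hyb.1 i
    have a4 := hyb.2 i
    simp only [Pi.add_apply] at a1 a2 a3 a4
    constructor <;> linarith
  have hsub : Icc (h • zv a) (h • zv a + fun _ => k * h) ⊆ interior D := fun b hb =>
    hB (Metric.mem_closedBall.2 (hdist b hb))
  have hker := hf.2.2 k le_rfl
  have hfk : ∀ x ∈ interior D, ∀ j : Fin k → Fin d,
      |iteratedFDeriv ℝ k f x (fun i => Pi.single (j i) 1)| ≤ 1 := fun x hx j => hker j x hx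
  have hys : ∀ m' ≤ k, ‖iteratedFDeriv ℝ m' f (y m)‖ ≤ (d:ℝ)^k * ((d:ℝ)^k * k * h)^(k-m') := by
    intro m' hm'
    refine block_small hd hh isOpen_interior hf.1 hfk hsub ?_ hm' hyb
    intro b hb
    have hmem : h • zv a + h • (fun i => (b i : ℝ)) ∈
        Icc (h • zv a) (h • zv a + fun _ => (k:ℝ) * h) := by
      refine ⟨fun i => ?_, fun i => ?_⟩
      · simp only [Pi.add_apply, Pi.smul_apply, smul_eq_mul]
        have : 0 ≤ h * (b i : ℝ) := by positivity
        linarith
      · simp only [Pi.add_apply, Pi.smul_apply, smul_eq_mul]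
        have : (b i : ℝ) ≤ k := by exact_mod_cast hb i
        nlinarith
    have e : h • zv a + h • (fun i => (b i : ℝ)) = h • zv (fun i => a i + (b i : ℤ)) := by
      funext i
      simp only [zv, Pi.add_apply, Pi.smul_apply, smul_eq_mul]
      push_cast; ring
    have hin := hsub hmem
    rw [e] at hin ⊢
    exact hz _ hin
  have hfin := chain_small isOpen_interior hf.1 hfk m y hseg (by positivity) hys l hl
  rw [hy0] at hfin
  refine hfin.trans ?_
  have e : ((d:ℝ)^k * k + k / c) * h = (d:ℝ)^k * k * h + t := by rw [ht]; ring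
  rw [e]
  have : 0 ≤ ∑ i ∈ Finset.range m, dist (y i) (y (i + 1)) :=
    Finset.sum_nonneg (fun _ _ => dist_nonneg)
  gcongr

end Pool.Agent.Y686.CW
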