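import Pool.Agent.Y686.CW.Approx

open scoped ENNReal NNReal Topology
open MeasureTheory Filter Set

namespace Pool.Agent.Y686.CW

open Pool.Agent.Helper228.CkInt

/-- sup bound of functions of `G` vanishing on the full grid -/
theorem grid_sup {d k q : ℕ} (hd : 1 ≤ d) (hk1 : 1 ≤ k) (hq : 2 * k ≤ q) {g : E d → ℝ}
    (hg : g ∈ G d k) (hz : ∀ y ∈ layerGrid d q (1/2), g y = 0) (x : E d) :
    |g x| ≤ (d:ℝ)^k * ((d:ℝ)^k * k * (q:ℝ)⁻¹)^k := by
  by_cases hx : x ∈ cube d
  · have := layer_small (U := univ) hd hk1 (w := 1/2) (by norm_num)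
      (by have : (2:ℝ) * k ≤ q := by exact_mod_cast hq
          linarith) (by norm_num) isOpen_univ (subset_univ _) hg.1.contDiffOn
      (fun x _ j => hg.2.2 j x) hz (cube_subset_Icc d hx)
      ⟨⟨0, hd⟩, by rcases le_total (x ⟨0, hd⟩) (1/2) with h | h
                   · left; exact h
                   · right; linarith⟩ (Nat.zero_le k)
    rw [norm_iteratedFDeriv_zero, Real.norm_eq_abs, Nat.sub_zero] at this
    exact this
  · have : g x = 0 := by
      by_contra h
      exact hx (hg.2.1 (subset_tsupport _ h))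
    rw [this, abs_zero]; positivity

theorem grid_card {d q : ℕ} (hd : 1 ≤ d) :
    (layerGrid d q (1/2)).card ≤ 2 * d * (q+1)^d := by
  have h1 := layerGrid_card d q (w := 1/2) (by norm_num) hd
  have h2 : (d:ℝ) * (2 * (2 * (1/2) * q + 1)) * ((q:ℝ) + 1) ^ (d-1) = 2 * d * ((q:ℝ)+1)^d := by
    have : ((q:ℝ)+1)^d = ((q:ℝ)+1)^(d-1) * ((q:ℝ)+1) := by
      rw [← pow_succ]; congr 1; omega
    rw [this]; ring
  rw [h2] at h1
  exact_mod_cast h1

theorem G_neg {d k : ℕ} {g : E d → ℝ} (hg : g ∈ G d k) : (fun y => - g y) ∈ G d k := by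
  refine ⟨hg.1.neg, ?_, fun j x => ?_⟩
  · refine (closure_mono ?_).trans hg.2.1
    intro y hy hy2
    apply hy
    simp only [hy2, neg_zero]
  · have h1 : iteratedFDeriv ℝ k (fun x => - g x) x = - iteratedFDeriv ℝ k g x := by
      have := iteratedFDeriv_neg_apply (𝕜 := ℝ) (i := k) (f := g) (x := x)
      exact this
    rw [h1, _root_.neg_apply, abs_neg]
    exact hg.2.2 j x

/-- a competitor with prescribed sign -/
theorem exists_signed {d k : ℕ} (P : Finset (E d)) {η : ℝ} (hη : 0 < η) (a : ℝ) :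
    ∃ g ∈ G d k, (∀ x ∈ P, g x = 0) ∧ |a| * (r0 d k P - η) ≤ a * ∫ y, g y := by
  obtain ⟨g, hg, hP, hI⟩ := exists_r0 (k := k) P hη
  rcases le_total 0 a with ha | ha
  · refine ⟨g, hg, hP, ?_⟩
    rw [abs_of_nonneg ha]
    exact mul_le_mul_of_nonneg_left hI.le ha
  · refine ⟨fun y => - g y, G_neg hg, fun x hx => by simp [hP x hx], ?_⟩
    rw [integral_neg, abs_of_nonpos ha]
    nlinarith

/-- the superposition lemma: lower bound for the error of the weighted problem -/
theorem superposeW {d k n q : ℕ} (hd : 1 ≤ d) (hk1 : 1 ≤ k) (hq : 2 * k ≤ q) {D : Set (E d)}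
    {s : ℝ} (hs : 0 < s) (hs1 : s ≤ 1) (Z : Finset (Fin d → ℤ))
    (hZ : ∀ z ∈ Z, ccell s z ⊆ interior D) {ρ : E d → ℝ} (hρ : IntegrableOn ρ D)
    (a : (Fin d → ℤ) → ℝ) {δ : ℝ} (hδ : ∫ x in D, |ρ x - stepF s Z a x| ≤ δ)
    {b : ℝ} (hb : ∀ ν : (Fin d → ℤ) → ℕ, ∑ z ∈ Z, ν z ≤ n →
      b < s ^ k * (s ^ d * ∑ z ∈ Z, |a z| * e0 d k (ν z + 2 * d * (q+1)^d))
        - δ * (s ^ k * ((d:ℝ)^k * ((d:ℝ)^k * k * (q:ℝ)⁻¹)^k))) :
    ENNReal.ofReal b ≤ minErrorW D (smoothClass k D) ρ n := by
  classical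
  refine lower_radiusW (fun x => ?_)
  -- the number of points per cell
  let S : (Fin d → ℤ) → Finset (Fin n) := fun z => Finset.univ.filter (fun i => idx s (x i : E d) = z)
  let ν : (Fin d → ℤ) → ℕ := fun z => (S z).card
  have hν : ∑ z ∈ Z, ν z ≤ n := by
    have h1 : ∑ z ∈ Z, ν z = (Z.biUnion S).card := by
      rw [Finset.card_biUnion]
      intro a _ b _ hab
      rw [Function.onFun, Finset.disjoint_left]
      intro i hi hi'
      simp only [S, Finset.mem_filter, Finset.mem_univ, true_and] at hi hi'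
      exact hab (hi.symm.trans hi')
    rw [h1]
    simpa using Finset.card_le_univ (Z.biUnion S)
  have hb' := hb ν hν
  let P : (Fin d → ℤ) → Finset (E d) := fun z =>
    (S z).image (fun i => s⁻¹ • ((x i : E d) + -(s • zv z))) ∪ layerGrid d q (1/2)
  have hP : ∀ z, (P z).card ≤ ν z + 2 * d * (q+1)^d := fun z =>
    (Finset.card_union_le _ _).trans (add_le_add Finset.card_image_le (grid_card hd))
  set B : ℝ := (d:ℝ)^k * ((d:ℝ)^k * k * (q:ℝ)⁻¹)^k with hB
  have hB0 : 0 ≤ B := by positivity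
  -- choose `η`
  obtain ⟨η, hη, hη2⟩ : ∃ η > 0, b ≤ s ^ k * (s ^ d * (∑ z ∈ Z, |a z| *
      e0 d k (ν z + 2 * d * (q+1)^d) - (∑ z ∈ Z, |a z|) * η)) - δ * (s ^ k * B) := by
    set T := ∑ z ∈ Z, |a z| * e0 d k (ν z + 2 * d * (q+1)^d) with hT
    set A := ∑ z ∈ Z, |a z| with hA
    have hA0 : 0 ≤ A := Finset.sum_nonneg (fun _ _ => abs_nonneg _)
    have hpos : 0 < s ^ k * s ^ d * (A + 1) := by positivity
    refine ⟨(s ^ k * (s ^ d * T) - δ * (s ^ k * B) - b) / (s ^ k * s ^ d * (A + 1)),
      div_pos (by linarith) hpos, ?_⟩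
    have h1 : s ^ k * s ^ d * A * ((s ^ k * (s ^ d * T) - δ * (s ^ k * B) - b)
        / (s ^ k * s ^ d * (A + 1))) ≤ s ^ k * (s ^ d * T) - δ * (s ^ k * B) - b := by
      rw [← mul_div_assoc, div_le_iff₀ hpos]
      have : 0 ≤ s ^ k * s ^ d := by positivity
      nlinarith
    linarith
  have hex : ∀ z, ∃ g ∈ G d k, (∀ y ∈ P z, g y = 0) ∧ |a z| * (r0 d k (P z) - η)
      ≤ a z * ∫ y, g y := fun z => exists_signed (P z) hη (a z)
  choose g hgG hgP hgI using hex
  have hgB : ∀ z y, |g z y| ≤ B := fun z y =>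
    grid_sup hd hk1 hq (hgG z) (fun y hy => hgP z y (Finset.mem_union_right _ hy)) y
  set f : E d → ℝ := fun y => ∑ z ∈ Z, resc k s z (g z) y with hf
  have hsupp : ∀ z y, idx s y ≠ z → ∀ m ≤ k, ∀ v : Fin m → E d,
      iteratedFDeriv ℝ m (resc k s z (g z)) y v = 0 := by
    intro z y hy m hm v
    rw [resc_iter hs (hgG z).1 hm, iter_eq_zero (hgG z).2.1 (fun h => hy (mem_cube_idx hs h))]
    simp
  have hsupp0 : ∀ z y, idx s y ≠ z → resc k s z (g z) y = 0 := by
    intro z y hy
    have := hsupp z y hy 0 (Nat.zero_le _) (fun i => i.elim0)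
    simpa using this
  have hbound : ∀ m ≤ k, ∀ j : Fin m → Fin d, ∀ y,
      |iteratedFDeriv ℝ m f y (fun i => Pi.single (j i) 1)| ≤ 1 := by
    intro m hm j y
    have h1 : iteratedFDeriv ℝ m f y = ∑ z ∈ Z, iteratedFDeriv ℝ m (resc k s z (g z)) y := by
      have := iteratedFDeriv_sum (𝕜 := ℝ) (i := m) (u := Z) (f := fun z => resc k s z (g z))
        (fun z _ => (resc_contDiff (hgG z).1).of_le (by exact_mod_cast hm))
      rw [hf, this, Finset.sum_apply]
    rw [h1, _root_.sum_apply]
    by_cases hy : idx s y ∈ Z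
    · rw [Finset.sum_eq_single_of_mem _ hy (fun z _ hz => hsupp z y hz.symm m hm _)]
      rw [resc_iter hs (hgG _).1 hm, abs_mul, abs_of_nonneg (by positivity)]
      have h2 := lower_orders hd (hgG (idx s y)).1 (hgG _).2.1 zero_le_one (hgG _).2.2 hm j
        (s⁻¹ • (y + -(s • zv (idx s y))))
      calc _ ≤ (1:ℝ) * 1 := mul_le_mul (pow_le_one₀ hs.le hs1) h2 (abs_nonneg _) zero_le_one
        _ = 1 := one_mul 1
    · rw [Finset.sum_eq_zero (fun z hz => hsupp z y (fun h => hy (h ▸ hz)) m hm _)]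
      simp
  have hfc : ContDiff ℝ k f := ContDiff.sum (fun z _ => resc_contDiff (hgG z).1)
  have hfF : f ∈ smoothClass k D := by
    refine ⟨hfc.contDiffOn, fun y _ => ?_, fun m hm j y _ => hbound m hm j y⟩
    have := hbound 0 (Nat.zero_le _) (fun i => i.elim0) y
    simpa using this
  -- sup bound of `f`
  have hfsup : ∀ y, |f y| ≤ s ^ k * B := by
    intro y
    by_cases hy : idx s y ∈ Z
    · have e : f y = resc k s (idx s y) (g (idx s y)) y := by
        rw [hf]
        exact Finset.sum_eq_single_of_mem _ hy (fun z _ hz => hsupp0 z y hz.symm)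
      rw [e]
      simp only [resc]
      rw [abs_mul, abs_of_nonneg (by positivity)]
      exact mul_le_mul_of_nonneg_left (hgB _ _) (by positivity)
    · have e : f y = 0 := by
        rw [hf]
        exact Finset.sum_eq_zero (fun z hz => hsupp0 z y (fun h => hy (h ▸ hz)))
      rw [e, abs_zero]; positivity
  refine ⟨f, hfF, smoothClass_neg hfF, fun i => ?_, ?_⟩
  · refine Finset.sum_eq_zero (fun z _ => ?_)
    by_cases hz : idx s (x i : E d) = z
    · have : s⁻¹ • ((x i : E d) + -(s • zv z)) ∈ P z :=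
        Finset.mem_union_left _ (Finset.mem_image_of_mem _ (by simp [S, hz]))
      simp only [resc, hgP z _ this, mul_zero]
    · exact hsupp0 z _ hz
  · have hRI : ∀ z ∈ Z, Integrable (resc k s z (g z)) := by
      intro z _
      refine (resc_contDiff (hgG z).1).continuous.integrable_of_hasCompactSupport ?_
      have hI : IsCompact (ccell s z) := by
        have : ccell s z = Icc (fun i => s * (z i : ℝ)) (fun i => s * ((z i : ℝ) + 1)) := by
          ext y; simp only [ccell, mem_Icc, Pi.le_def, Set.mem_ofPred_eq]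
          exact forall_and
        rw [this]; exact isCompact_Icc
      refine HasCompactSupport.intro hI (fun y hy => hsupp0 z y (fun h => ?_))
      exact hy (cell_subset_ccell _ _ ((mem_cell_iff hs).2 h))
    have hstepf : ∀ y, stepF s Z a y * f y = ∑ z ∈ Z, a z * resc k s z (g z) y := by
      intro y
      by_cases hy : idx s y ∈ Z
      · have e : f y = resc k s (idx s y) (g (idx s y)) y := by
          rw [hf]
          exact Finset.sum_eq_single_of_mem _ hy (fun z _ hz => hsupp0 z y hz.symm)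
        rw [stepF_mem hy, e, Finset.sum_eq_single_of_mem _ hy
          (fun z _ hz => by rw [hsupp0 z y hz.symm, mul_zero])]
      · rw [stepF_notMem hy, zero_mul]
        exact (Finset.sum_eq_zero (fun z hz => by
          rw [hsupp0 z y (fun h => hy (h ▸ hz)), mul_zero])).symm
    have h1 : ∫ y in D, stepF s Z a y * f y = ∑ z ∈ Z, a z * ∫ y, resc k s z (g z) y := by
      simp only [hstepf]
      rw [integral_finsetSum]
      · refine Finset.sum_congr rfl (fun z hz => ?_)
        rw [integral_const_mul]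
        congr 1
        refine setIntegral_eq_integral_of_forall_compl_eq_zero (fun y hy => hsupp0 z y (fun h => ?_))
        exact hy (interior_subset (hZ z hz (cell_subset_ccell _ _ ((mem_cell_iff hs).2 h))))
      · intro z hz
        exact ((hRI z hz).const_mul _).integrableOn
    have hstepI : IntegrableOn (fun y => stepF s Z a y * f y) D := by
      simp only [hstepf]
      exact (integrable_finsetSum _ (fun z hz => (hRI z hz).const_mul _)).integrableOn
    have hfm : AEStronglyMeasurable f (volume.restrict D) :=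
      hfc.continuous.aestronglyMeasurable
    have hstep : IntegrableOn (fun x : E d => stepF s Z a x) D :=
      (comp_stepF_integrable hs (fun t => t) rfl).integrableOn
    have hdiff : IntegrableOn (fun y => ρ y - stepF s Z a y) D := hρ.sub hstep
    have hdiffI : IntegrableOn (fun y => (ρ y - stepF s Z a y) * f y) D :=
      Integrable.mul_bdd (c := s ^ k * B) hdiff hfm (Filter.Eventually.of_forall hfsup)
    have h2 : ∫ y in D, ρ y * f y = (∫ y in D, stepF s Z a y * f y)
        + ∫ y in D, (ρ y - stepF s Z a y) * f y := by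
      rw [← integral_add hstepI hdiffI]
      congr 1; funext y; ring
    have h3 : -(δ * (s ^ k * B)) ≤ ∫ y in D, (ρ y - stepF s Z a y) * f y := by
      have h4 : |∫ y in D, (ρ y - stepF s Z a y) * f y| ≤ δ * (s ^ k * B) := by
        refine (abs_integral_le_integral_abs).trans ?_
        have h5 : ∫ y in D, |(ρ y - stepF s Z a y) * f y|
            ≤ ∫ y in D, |ρ y - stepF s Z a y| * (s ^ k * B) := by
          refine setIntegral_mono hdiffI.abs (hdiff.abs.mul_const _) (fun y => ?_)
          rw [abs_mul]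
          exact mul_le_mul_of_nonneg_left (hfsup y) (abs_nonneg _)
        refine h5.trans ?_
        rw [integral_mul_const]
        exact mul_le_mul_of_nonneg_right hδ (by positivity)
      exact (abs_le.1 h4).1
    have h6 : s ^ k * (s ^ d * (∑ z ∈ Z, |a z| * e0 d k (ν z + 2 * d * (q+1)^d)
        - (∑ z ∈ Z, |a z|) * η)) ≤ ∑ z ∈ Z, a z * ∫ y, resc k s z (g z) y := by
      simp only [resc_integral hs]
      have e1 : ∑ z ∈ Z, a z * (s ^ k * (s ^ d * ∫ y, g z y))
          = s ^ k * (s ^ d * ∑ z ∈ Z, a z * ∫ y, g z y) := by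
        rw [Finset.mul_sum, Finset.mul_sum]
        exact Finset.sum_congr rfl (fun z _ => by ring)
      rw [e1, Finset.sum_mul, ← Finset.sum_sub_distrib]
      have h7 : ∑ z ∈ Z, (|a z| * e0 d k (ν z + 2 * d * (q+1)^d) - |a z| * η)
          ≤ ∑ z ∈ Z, a z * ∫ y, g z y := by
        refine Finset.sum_le_sum (fun z _ => ?_)
        refine le_trans ?_ (hgI z)
        rw [← mul_sub]
        refine mul_le_mul_of_nonneg_left ?_ (abs_nonneg _)
        linarith [e0_le hd (hP z) (k := k)]
      gcongr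
    rw [h2, h1]
    linarith

end Pool.Agent.Y686.CW
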