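import Pool.Agent.Y686.CW.Low

open scoped ENNReal NNReal Topology
open MeasureTheory Filter Set

namespace Pool.Agent.Y686.CW

open Pool.Agent.Helper228.CkInt

theorem wfun_eq {d k : ℕ} (hd : 1 ≤ d) (D : Set (E d)) (ρ : E d → ℝ) :
    wfun k D ρ = (∫ y in D, |ρ y| ^ (1 / (1 + (k:ℝ)/d))) ^ (1 + (k:ℝ)/d) := by
  have hd0 : (0:ℝ) < d := by exact_mod_cast hd
  have e1 : (1:ℝ) + (k:ℝ)/d = ((d:ℝ) + k)/d := by field_simp
  have e2 : 1 / (((d:ℝ) + k)/d) = (d:ℝ) / (d + k) := by rw [one_div_div]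
  unfold wfun
  rw [e1, e2]

theorem pow_dk {d k : ℕ} (hd : 1 ≤ d) {s : ℝ} (hs : 0 < s) :
    s ^ k * s ^ d = (s ^ d) ^ (1 + (k:ℝ)/d) := by
  have hd0 : (0:ℝ) < d := by exact_mod_cast hd
  have h1 : (s ^ d) ^ (1 + (k:ℝ)/d) = s ^ ((k + d : ℕ) : ℝ) := by
    rw [← Real.rpow_natCast s d, ← Real.rpow_mul hs.le]
    congr 1
    push_cast; field_simp; ring
  rw [h1, Real.rpow_natCast, pow_add]

theorem pow_k {d k : ℕ} (hd : 1 ≤ d) {s : ℝ} (hs : 0 < s) :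
    s ^ k = (s ^ d) ^ ((k:ℝ)/d) := by
  have hd0 : (0:ℝ) < d := by exact_mod_cast hd
  have h1 : (s ^ d) ^ ((k:ℝ)/d) = s ^ (k : ℝ) := by
    rw [← Real.rpow_natCast s d, ← Real.rpow_mul hs.le]
    congr 1
    field_simp
  rw [h1, Real.rpow_natCast]

theorem cells_volume_le {d : ℕ} {D : Set (E d)} (hb : Bornology.IsBounded D) {s : ℝ} (hs : 0 < s)
    (Z : Finset (Fin d → ℤ)) (hZ : ∀ z ∈ Z, ccell s z ⊆ interior D) :
    (Z.card : ℝ) * s ^ d ≤ (volume D).toReal + 1 := by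
  have hV : volume D < ⊤ := finite_vol hb
  refine card_mul_le hs Z (by positivity) (W := D) ?_ (fun z hz =>
    (cell_subset_ccell s z).trans ((hZ z hz).trans interior_subset))
  rw [ENNReal.ofReal_add ENNReal.toReal_nonneg zero_le_one, ENNReal.ofReal_toReal hV.ne]
  exact le_self_add

theorem e0_lower_of_lt {d k : ℕ} (hd : 1 ≤ d) {c : ℝ} (hc : c < C0 d k) :
    ∃ m0 : ℕ, ∀ m, m0 ≤ m → 1 ≤ m → c * (m:ℝ) ^ (-((k:ℝ)/d)) ≤ e0 d k m := by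
  obtain ⟨m0, hm0⟩ := eventually_atTop.1 (lt_C0 (k := k) hd hc)
  refine ⟨m0, fun m hm hm1 => ?_⟩
  have h8 : (0:ℝ) < m := by exact_mod_cast hm1
  have h9 : (0:ℝ) < (m:ℝ)^((k:ℝ)/d) := Real.rpow_pos_of_pos h8 _
  rw [Real.rpow_neg h8.le, ← div_eq_mul_inv, div_le_iff₀ h9]
  exact (hm0 m hm).le

/-- asymptotic lower bound for the weighted problem, for every bounded Jordan measurable set -/
theorem lowerW_asymp {d k : ℕ} (hd : 1 ≤ d) (hk1 : 1 ≤ k) {D : Set (E d)}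
    (hb : Bornology.IsBounded D) (hJ : volume (frontier D) = 0) {ρ : E d → ℝ}
    (hρ : IntegrableOn ρ D) {c' : ℝ} (hc' : c' < C0 d k * wfun k D ρ) :
    ∀ᶠ n : ℕ in atTop, ENNReal.ofReal (c' * (n:ℝ) ^ (-((k:ℝ)/d)))
      ≤ minErrorW D (smoothClass k D) ρ n := by
  have hd0 : (0:ℝ) < d := by exact_mod_cast hd
  have hk0 : (0:ℝ) < k := by exact_mod_cast hk1
  rw [wfun_eq hd] at hc'
  set p : ℝ := (k:ℝ)/d with hp
  have hp0 : 0 < p := by positivity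
  set I : ℝ := ∫ y in D, |ρ y| ^ (1 / (1 + p)) with hI
  have hI0 : 0 ≤ I := integral_nonneg (fun y => Real.rpow_nonneg (abs_nonneg _) _)
  rcases le_or_gt c' 0 with hneg | hpos
  · refine Filter.Eventually.of_forall (fun n => ?_)
    rw [ENNReal.ofReal_of_nonpos (mul_nonpos_of_nonpos_of_nonneg hneg (by positivity))]
    exact bot_le
  have hIpos : 0 < I := by
    rcases eq_or_lt_of_le hI0 with h | h
    · rw [← h, Real.zero_rpow (by positivity), mul_zero] at hc'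
      exact absurd hc' (not_lt.2 hpos.le)
    · exact h
  have hIp : 0 < I ^ (1 + p) := Real.rpow_pos_of_pos hIpos _
  -- choose `c`
  obtain ⟨c, hc1, hc2⟩ : ∃ c, c' / I ^ (1 + p) < c ∧ c < C0 d k :=
    exists_between ((div_lt_iff₀ hIp).2 hc')
  have hc0 : 0 < c := (div_pos hpos hIp).trans hc1
  rw [div_lt_iff₀ hIp] at hc1
  obtain ⟨m0, hm0⟩ := e0_lower_of_lt (k := k) hd hc2
  -- choose `θ`
  obtain ⟨θ, hθ, hθc⟩ : ∃ θ : ℝ, 0 < θ ∧ c' < c * I ^ (1 + p) * (1 + 2 * θ) ^ (-p) := by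
    have h1 : Tendsto (fun θ : ℝ => c * I ^ (1 + p) * (1 + 2 * θ) ^ (-p)) (𝓝 0)
        (𝓝 (c * I ^ (1 + p) * (1 + 2 * 0) ^ (-p))) := by
      refine Tendsto.const_mul _ ?_
      refine Tendsto.rpow_const ?_ (Or.inl (by norm_num))
      exact tendsto_const_nhds.add (tendsto_const_nhds.mul tendsto_id)
    have h2 : c' < c * I ^ (1 + p) * (1 + 2 * 0) ^ (-p) := by simpa using hc1
    have h3 : ∀ᶠ θ : ℝ in 𝓝[>] 0, c' < c * I ^ (1 + p) * (1 + 2 * θ) ^ (-p) :=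
      (h1.eventually (lt_mem_nhds h2)).filter_mono nhdsWithin_le_nhds
    obtain ⟨θ, h4, h5⟩ := (h3.and self_mem_nhdsWithin).exists
    exact ⟨θ, h5, h4⟩
  set V : ℝ := (volume D).toReal + 1 with hV
  have hV0 : 0 < V := add_pos_of_nonneg_of_pos ENNReal.toReal_nonneg zero_lt_one
  set K : ℝ := (d:ℝ)^k * ((d:ℝ)^k * k)^k * (2 ^ k * (2 * d / θ * V) ^ p) with hK
  have hK0 : 0 ≤ K := by positivity
  -- choose `ε`
  obtain ⟨ε, hε, hεI, hεc⟩ : ∃ ε : ℝ, 0 < ε ∧ ε < I ∧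
      c' < c * (I - ε) ^ (1 + p) * (1 + 2 * θ) ^ (-p) - ε * K := by
    have h1 : Tendsto (fun ε : ℝ => c * (I - ε) ^ (1 + p) * (1 + 2 * θ) ^ (-p) - ε * K) (𝓝 0)
        (𝓝 (c * (I - 0) ^ (1 + p) * (1 + 2 * θ) ^ (-p) - 0 * K)) := by
      refine Tendsto.sub (Tendsto.mul_const _ (Tendsto.const_mul _ ?_)) (tendsto_id.mul_const _)
      exact Tendsto.rpow_const (tendsto_const_nhds.sub tendsto_id) (Or.inr (by positivity))
    have h2 : c' < c * (I - 0) ^ (1 + p) * (1 + 2 * θ) ^ (-p) - 0 * K := by simpa using hθc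
    have h3 : ∀ᶠ ε : ℝ in 𝓝[>] 0, c' < c * (I - ε) ^ (1 + p) * (1 + 2 * θ) ^ (-p) - ε * K :=
      (h1.eventually (lt_mem_nhds h2)).filter_mono nhdsWithin_le_nhds
    have h4 : ∀ᶠ ε : ℝ in 𝓝[>] 0, ε < I :=
      (gt_mem_nhds hIpos).filter_mono nhdsWithin_le_nhds
    obtain ⟨ε, ⟨h5, h6⟩, h7⟩ := ((h3.and h4).and self_mem_nhdsWithin).exists
    exact ⟨ε, h7, h6, h5⟩
  obtain ⟨s, hs, hs1, Z, hZ, a, ha1, ha2⟩ := approx hb hJ hρ (q := 1 / (1 + p)) (by positivity)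
    (by rw [div_le_one (by positivity)]; linarith) hε
  rw [← hI] at ha2
  set Sg : ℝ := ∑ z ∈ Z, |a z| ^ (1 / (1 + p)) with hSg
  have hSlow : I - ε ≤ s ^ d * Sg := by
    have := (abs_le.1 ha2).2
    linarith
  have hZne : Z.Nonempty := by
    rw [Finset.nonempty_iff_ne_empty]
    rintro rfl
    rw [hSg, Finset.sum_empty, mul_zero] at hSlow
    linarith
  set M : ℝ := (Z.card : ℝ) with hM
  have hM0 : 0 < M := by rw [hM]; exact_mod_cast hZne.card_pos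
  have hMV : M * s ^ d ≤ V := cells_volume_le hb hs Z hZ
  set L : ℝ := 2 * d * M / θ with hL
  have hL0 : 0 < L := by positivity
  have e1 : ∀ᶠ n : ℕ in atTop, side d L n < min (1/4 : ℝ) (1 / (2 * (k:ℝ) + 2)) :=
    (side_tendsto hd L).eventually (gt_mem_nhds (lt_min (by norm_num)
      (by positivity : (0:ℝ) < 1 / (2 * (k:ℝ) + 2))))
  have e2 : ∀ᶠ n : ℕ in atTop, M * (m0 + 1) / θ ≤ (n : ℝ) :=
    tendsto_natCast_atTop_atTop.eventually (eventually_ge_atTop _)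
  filter_upwards [e1, e2, eventually_ge_atTop 1] with n e1 e2 hn
  have hn0 : (0:ℝ) < n := by exact_mod_cast hn
  have hσ := side_pos (d := d) hL0 hn
  have hσd : side d L n ^ d = L / n := side_pow hd hL0 n
  have hσk : side d L n ^ k = (L / n) ^ p := side_pow_k k hL0 n
  set σ := side d L n with hσdef
  have hσ4 : 4 < σ⁻¹ := by
    rw [lt_inv_comm₀ (by norm_num) hσ]
    have := e1.trans_le (min_le_left _ _)
    linarith
  have hσk2 : 2 * (k:ℝ) + 2 < σ⁻¹ := by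
    rw [lt_inv_comm₀ (by positivity) hσ]
    have := e1.trans_le (min_le_right _ _)
    rwa [one_div] at this
  set q : ℕ := ⌊σ⁻¹⌋₊ - 1 with hq
  have hfl : 1 ≤ ⌊σ⁻¹⌋₊ := by
    rw [Nat.one_le_floor_iff]; linarith
  have hq1 : ((q + 1 : ℕ) : ℝ) ≤ σ⁻¹ := by
    have : q + 1 = ⌊σ⁻¹⌋₊ := by omega
    rw [this]
    exact Nat.floor_le (by positivity)
  have hq2 : σ⁻¹ - 2 ≤ q := by
    have h1 := Nat.lt_floor_add_one σ⁻¹
    have h2 : (⌊σ⁻¹⌋₊ : ℝ) = q + 1 := by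
      have : ⌊σ⁻¹⌋₊ = q + 1 := by omega
      rw [this]; push_cast; ring
    rw [h2] at h1
    linarith
  have hq3 : 2 * k ≤ q := by
    have : (2 * k : ℝ) ≤ q := by linarith
    exact_mod_cast this
  have hq4 : (q:ℝ)⁻¹ ≤ 2 * σ := by
    have h1 : σ⁻¹ / 2 ≤ q := by linarith
    have h2 : 0 < σ⁻¹ / 2 := by positivity
    calc (q:ℝ)⁻¹ ≤ (σ⁻¹ / 2)⁻¹ := inv_anti₀ h2 h1
      _ = 2 * σ := by rw [inv_div, div_inv_eq_mul]
  have hΛ : (2 * d * ((q:ℝ) + 1) ^ d) * M ≤ θ * n := by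
    have h1 : ((q:ℝ) + 1) ^ d ≤ (σ⁻¹) ^ d := by
      push_cast at hq1
      gcongr
    have h2 : (σ⁻¹) ^ d = n / L := by rw [inv_pow, hσd, inv_div]
    rw [h2] at h1
    calc (2 * d * ((q:ℝ) + 1) ^ d) * M ≤ (2 * d * (n / L)) * M := by gcongr
      _ = θ * n := by rw [hL]; field_simp
  refine superposeW hd hk1 hq3 hs hs1 Z hZ hρ a ha1 (fun ν hν => ?_)
  -- Hölder
  set Λ : ℕ := 2 * d * (q+1)^d with hΛdef
  have hT0 : (0:ℝ) < (1 + 2 * θ) * n := by positivity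
  have h1 : Sg ^ (1 + p) * ((1 + 2 * θ) * n) ^ (-p)
      ≤ ∑ z ∈ Z, |a z| * ((ν z : ℝ) + Λ + (m0 + 1)) ^ (-p) := by
    refine holder_alloc Z hp0 (fun z _ => abs_nonneg _) (fun z _ => by positivity) hT0 ?_
    rw [Finset.sum_add_distrib, Finset.sum_add_distrib, Finset.sum_const, Finset.sum_const,
      nsmul_eq_mul, nsmul_eq_mul, ← hM]
    have h2 : (∑ z ∈ Z, (ν z : ℝ)) ≤ n := by exact_mod_cast hν
    have h3 : M * (Λ : ℝ) ≤ θ * n := by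
      rw [hΛdef]; push_cast
      linarith
    have h4 : M * ((m0:ℝ) + 1) ≤ θ * n := by
      rw [div_le_iff₀ hθ] at e2
      linarith
    linarith
  have h2 : c * ∑ z ∈ Z, |a z| * ((ν z : ℝ) + Λ + (m0 + 1)) ^ (-p)
      ≤ ∑ z ∈ Z, |a z| * e0 d k (ν z + Λ) := by
    rw [Finset.mul_sum]
    refine Finset.sum_le_sum (fun z _ => ?_)
    have h8 := hm0 (ν z + Λ + (m0 + 1)) (by omega) (by omega)
    push_cast at h8
    have h9 := h8.trans (e0_anti (k := k) hd (Nat.le_add_right (ν z + Λ) (m0 + 1)))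
    calc c * (|a z| * ((ν z : ℝ) + Λ + (m0 + 1)) ^ (-p))
        = |a z| * (c * ((ν z : ℝ) + Λ + (m0 + 1)) ^ (-p)) := by ring
      _ ≤ |a z| * e0 d k (ν z + Λ) := mul_le_mul_of_nonneg_left h9 (abs_nonneg _)
  have hsdk : s ^ k * s ^ d = (s ^ d) ^ (1 + p) := pow_dk hd hs
  have hsk : s ^ k = (s ^ d) ^ p := pow_k hd hs
  have hSg0 : 0 ≤ Sg := Finset.sum_nonneg (fun z _ => Real.rpow_nonneg (abs_nonneg _) _)
  -- main term
  have h3 : c * (I - ε) ^ (1 + p) * (1 + 2 * θ) ^ (-p) * (n:ℝ) ^ (-p)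
      ≤ s ^ k * (s ^ d * ∑ z ∈ Z, |a z| * e0 d k (ν z + Λ)) := by
    calc c * (I - ε) ^ (1 + p) * (1 + 2 * θ) ^ (-p) * (n:ℝ) ^ (-p)
        ≤ c * (s ^ d * Sg) ^ (1 + p) * (1 + 2 * θ) ^ (-p) * (n:ℝ) ^ (-p) := by
          have : 0 ≤ I - ε := by linarith
          gcongr
      _ = s ^ k * (s ^ d * (c * (Sg ^ (1 + p) * ((1 + 2 * θ) * n) ^ (-p)))) := by
          rw [Real.mul_rpow (by positivity) hSg0, ← hsdk, Real.mul_rpow (by positivity) hn0.le]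
          ring
      _ ≤ s ^ k * (s ^ d * ∑ z ∈ Z, |a z| * e0 d k (ν z + Λ)) := by
          have h4 : c * (Sg ^ (1 + p) * ((1 + 2 * θ) * n) ^ (-p))
              ≤ ∑ z ∈ Z, |a z| * e0 d k (ν z + Λ) :=
            (mul_le_mul_of_nonneg_left h1 hc0.le).trans h2
          gcongr
  -- error term
  have h4 : ε * (s ^ k * ((d:ℝ)^k * ((d:ℝ)^k * k * (q:ℝ)⁻¹)^k)) ≤ ε * K * (n:ℝ) ^ (-p) := by
    have h5 : s ^ k * ((q:ℝ)⁻¹) ^ k ≤ 2 ^ k * (2 * d / θ * V) ^ p * (n:ℝ) ^ (-p) := by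
      calc s ^ k * ((q:ℝ)⁻¹) ^ k ≤ s ^ k * (2 * σ) ^ k := by gcongr
        _ = 2 ^ k * ((s ^ d) ^ p * (L / n) ^ p) := by rw [mul_pow, hσk, hsk]; ring
        _ = 2 ^ k * ((2 * d / θ * (M * s ^ d)) ^ p * (n:ℝ) ^ (-p)) := by
            rw [← Real.mul_rpow (by positivity) (by positivity), Real.rpow_neg hn0.le,
              ← Real.inv_rpow hn0.le, ← Real.mul_rpow (by positivity) (by positivity)]
            congr 2
            rw [hL]; field_simp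
        _ ≤ 2 ^ k * ((2 * d / θ * V) ^ p * (n:ℝ) ^ (-p)) := by gcongr
        _ = _ := by ring
    calc ε * (s ^ k * ((d:ℝ)^k * ((d:ℝ)^k * k * (q:ℝ)⁻¹)^k))
        = ε * ((d:ℝ)^k * ((d:ℝ)^k * k)^k) * (s ^ k * ((q:ℝ)⁻¹) ^ k) := by
          rw [mul_pow ((d:ℝ)^k * k) ((q:ℝ)⁻¹)]; ring
      _ ≤ ε * ((d:ℝ)^k * ((d:ℝ)^k * k)^k) * (2 ^ k * (2 * d / θ * V) ^ p * (n:ℝ) ^ (-p)) := by
          gcongr
      _ = _ := by rw [hK]; ring
  have h5 : c' * (n:ℝ) ^ (-p)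
      < (c * (I - ε) ^ (1 + p) * (1 + 2 * θ) ^ (-p) - ε * K) * (n:ℝ) ^ (-p) :=
    mul_lt_mul_of_pos_right hεc (Real.rpow_pos_of_pos hn0 _)
  rw [sub_mul] at h5
  linarith

end Pool.Agent.Y686.CW
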