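import Pool.Agent.Y686.CW.UpAs

open scoped ENNReal NNReal Topology
open MeasureTheory Filter Set

namespace Pool.Agent.Y686.CW

open Pool.Agent.Helper228.CkInt

theorem jordanDomain_of_unit {d : ℕ} {D : Set (E d)} (h : UnitJordan D) : JordanDomain D := by
  refine ⟨h.1, h.2.1, ?_⟩
  rw [Set.nonempty_iff_ne_empty]
  intro h0
  have := volume_interior h.2.1 h.2.2
  rw [h0] at this
  simp at this

theorem C0_pos {d k : ℕ} (hd : 1 ≤ d) (hk : 1 ≤ k) : 0 < C0 d k :=
  C0_pos_of hd hk (cube_bounded d) (cube_frontier d) (volume_cube d) (interiorCone_cube hd)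

theorem minErrorW_lt_top {d k : ℕ} {D : Set (E d)} (hD : JordanDomain D) {ρ : E d → ℝ}
    (hρ : IntegrableOn ρ D) (n : ℕ) : minErrorW D (smoothClass k D) ρ n < ⊤ := by
  obtain ⟨hb, hJ, hne⟩ := hD
  refine lt_of_le_of_lt (upper_radiusW (B := ∫ y in D, |ρ y|) (hne.mono interior_subset)
    (fun f hf => smooth_mul_integrable hb hJ hρ hf)
    (fun f hf g hg => smoothClass_half_sub hf hg) ∅ (by simp) (by simp) (fun f hf _ => ?_))
    ENNReal.ofReal_lt_top
  rw [setIntegral_congr_set (f := fun y => ρ y * f y) (ae_interior hJ),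
    setIntegral_congr_set (f := fun y => |ρ y|) (ae_interior hJ)]
  have h1 := (smooth_mul_integrable hb hJ hρ hf).mono_set (interior_subset (s := D))
  have h2 : IntegrableOn (fun y => |ρ y|) (interior D) := (hρ.mono_set interior_subset).abs
  refine setIntegral_mono_on h1 h2 isOpen_interior.measurableSet (fun x hx => ?_)
  refine (le_abs_self _).trans ?_
  rw [abs_mul]
  have := hf.2.1 x (interior_subset hx)
  calc |ρ x| * |f x| ≤ |ρ x| * 1 := mul_le_mul_of_nonneg_left this (abs_nonneg _)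
    _ = |ρ x| := mul_one _

/-- the universal lower bound -/
theorem weighted_lower {d k : ℕ} (hd : 1 ≤ d) (hk1 : 1 ≤ k) {D : Set (E d)} (hD : JordanDomain D)
    {ρ : E d → ℝ} (hρ : IntegrableOn ρ D) {a : ℝ} (ha : a < C0 d k * wfun k D ρ) :
    ∀ᶠ n : ℕ in atTop, a < scaledErrorW k D ρ n := by
  obtain ⟨c', h1, h2⟩ := exists_between ha
  filter_upwards [lowerW_asymp hd hk1 hD.1 hD.2.1 hρ h2, eventually_ge_atTop 1] with n hn hn1
  have hn0 : (0:ℝ) < n := by exact_mod_cast hn1
  have h9 : (0:ℝ) < (n:ℝ)^((k:ℝ)/d) := Real.rpow_pos_of_pos hn0 _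
  have h10 := (ENNReal.ofReal_le_iff_le_toReal (minErrorW_lt_top hD hρ n).ne).1 hn
  have h11 := mul_le_mul_of_nonneg_right h10 h9.le
  rw [mul_assoc, Real.rpow_neg hn0.le, inv_mul_cancel₀ h9.ne', mul_one] at h11
  exact h1.trans_le h11

/-- the limit for weighted integration -/
theorem weighted_limit {d k : ℕ} (hd : 1 ≤ d) (hk1 : 1 ≤ k) {D : Set (E d)} (hD : JordanDomain D)
    (hjohn : LocalJohn D) {ρ : E d → ℝ} (hρ : IntegrableOn ρ D) :
    Tendsto (scaledErrorW k D ρ) atTop (𝓝 (C0 d k * wfun k D ρ)) := by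
  rw [tendsto_order]
  refine ⟨fun a ha => weighted_lower hd hk1 hD hρ ha, ?_⟩
  intro a ha
  have hw : 0 ≤ wfun k D ρ :=
    Real.rpow_nonneg (integral_nonneg (fun y => Real.rpow_nonneg (abs_nonneg _) _)) _
  have hC := C0_pos hd hk1
  obtain ⟨c', h1, h2⟩ := exists_between ha
  have h3 := upperW_asymp hd hk1 hD.1 hD.2.1 hD.2.2 hjohn hρ hC h1
  filter_upwards [h3, eventually_ge_atTop 1] with n hn hn1
  have hn0 : (0:ℝ) < n := by exact_mod_cast hn1
  have h9 : (0:ℝ) < (n:ℝ)^((k:ℝ)/d) := Real.rpow_pos_of_pos hn0 _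
  have hc'0 : 0 < c' := (mul_nonneg hC.le hw).trans_lt h1
  have h10 := ENNReal.toReal_le_of_le_ofReal (by positivity) hn
  have h11 := mul_le_mul_of_nonneg_right h10 h9.le
  rw [mul_assoc, Real.rpow_neg hn0.le, inv_mul_cancel₀ h9.ne', mul_one] at h11
  exact h11.trans_lt h2

theorem wfun_one {d k : ℕ} (D : Set (E d)) :
    wfun k D (fun _ => 1) = (volume D).toReal ^ (((d : ℝ) + k) / d) := by
  unfold wfun
  congr 1
  simp only [abs_one, Real.one_rpow]
  rw [setIntegral_const, smul_eq_mul, mul_one, measureReal_def]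

theorem scaledErrorW_one {d k : ℕ} (D : Set (E d)) :
    scaledErrorW k D (fun _ => 1) = scaledError k D := by
  funext n
  unfold scaledErrorW scaledError
  rw [minErrorW_one]

theorem unweighted_limit {d k : ℕ} (hd : 1 ≤ d) (hk1 : 1 ≤ k) {D : Set (E d)}
    (hD : JordanDomain D) (hjohn : LocalJohn D) :
    Tendsto (scaledError k D) atTop
      (𝓝 (C0 d k * (volume D).toReal ^ (((d : ℝ) + k) / d))) := by
  have h1 : IntegrableOn (fun _ : E d => (1:ℝ)) D := integrableOn_const (finite_vol hD.1).ne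
  have h2 := weighted_limit hd hk1 hD hjohn h1
  rwa [wfun_one, scaledErrorW_one] at h2

end Pool.Agent.Y686.CW
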