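import Pool.Agent.Y686.CW.LowAs
import Pool.Agent.Helper228.CkInt.Q

open scoped ENNReal NNReal Topology
open MeasureTheory Filter Set

namespace Pool.Agent.Y686.CW

open Pool.Agent.Helper228.CkInt

/-- nearly optimal nodes for the unit cube -/
theorem cube_nodes {d k : ℕ} (hd : 1 ≤ d) (hk1 : 1 ≤ k) (hC : 0 < C0 d k) {c : ℝ}
    (hc : C0 d k < c) :
    ∀ᶠ m : ℕ in atTop, ∃ P : Finset (E d), P.card ≤ m ∧ (∀ y ∈ P, y ∈ cube d) ∧
      ∀ F ∈ smoothClass k (cube d), (∀ y ∈ P, F y = 0) →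
        |∫ y in cube d, F y| ≤ c * (m:ℝ) ^ (-((k:ℝ)/d)) := by
  classical
  obtain ⟨c1, hc1, hc2⟩ := exists_between hc
  have hc0 : 0 < c := hC.trans hc
  filter_upwards [upper_asymp hd hk1 (cube_bounded d) (cube_frontier d) (volume_cube d)
    (interiorCone_cube hd) hc1, eventually_ge_atTop 1] with m hm hm1
  have hm0 : (0:ℝ) < m := by exact_mod_cast hm1
  have hmp : (0:ℝ) < (m:ℝ) ^ (-((k:ℝ)/d)) := Real.rpow_pos_of_pos hm0 _
  have hlt : minError (cube d) (smoothClass k (cube d)) m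
      < ENNReal.ofReal (c * (m:ℝ) ^ (-((k:ℝ)/d))) :=
    hm.trans_lt ((ENNReal.ofReal_lt_ofReal_iff (mul_pos hc0 hmp)).2
      (mul_lt_mul_of_pos_right hc2 hmp))
  unfold minError at hlt
  rw [iInf_lt_iff] at hlt
  obtain ⟨x, hx⟩ := hlt
  rw [iInf_lt_iff] at hx
  obtain ⟨φ, hφ⟩ := hx
  refine ⟨Finset.univ.image (fun i => (x i : E d)), ?_, ?_, ?_⟩
  · exact Finset.card_image_le.trans (by simp)
  · intro y hy
    obtain ⟨i, _, rfl⟩ := Finset.mem_image.1 hy
    exact (x i).2
  · intro F hF hF0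
    have h0 : ∀ i, F (x i) = 0 := fun i => hF0 _ (Finset.mem_image_of_mem _ (Finset.mem_univ i))
    have e1 : (fun i => F (x i)) = fun _ => (0:ℝ) := by funext i; exact h0 i
    have e2 : (fun i => - F (x i)) = fun _ => (0:ℝ) := by funext i; rw [h0 i, neg_zero]
    have h1 := (le_iSup₂ (f := fun (f : E d → ℝ) (_ : f ∈ smoothClass k (cube d)) =>
      ENNReal.ofReal |(∫ y in cube d, f y) - φ (fun i => f (x i))|) F hF).trans hφ.le
    have h2 := (le_iSup₂ (f := fun (f : E d → ℝ) (_ : f ∈ smoothClass k (cube d)) =>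
      ENNReal.ofReal |(∫ y in cube d, f y) - φ (fun i => f (x i))|) (fun x => - F x)
      (smoothClass_neg hF)).trans hφ.le
    have hb0 : 0 ≤ c * (m:ℝ) ^ (-((k:ℝ)/d)) := (mul_pos hc0 hmp).le
    simp only [e1] at h1
    simp only [e2, integral_neg] at h2
    rw [ENNReal.ofReal_le_ofReal_iff hb0, abs_le] at h1 h2
    rw [abs_le]
    constructor <;> linarith [h1.1, h1.2, h2.1, h2.2]

/-- the open cell is almost the whole cell -/
theorem ocell_ae {d : ℕ} {s : ℝ} (hs : 0 < s) (z : Fin d → ℤ) :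
    {x : E d | s⁻¹ • (x + -(s • zv z)) ∈ cube d} =ᵐ[volume] cell s z := by
  have e : {x : E d | s⁻¹ • (x + -(s • zv z)) ∈ cube d}
      = Set.pi univ (fun i => Ioo (s * (z i : ℝ)) (s * ((z i : ℝ) + 1))) := by
    ext x
    simp only [cube, Set.mem_ofPred_eq, Set.mem_pi, mem_univ, true_imp_iff, mem_Ioo, Pi.smul_apply,
      Pi.add_apply, Pi.neg_apply, smul_eq_mul, zv]
    refine forall_congr' (fun i => ?_)
    rw [inv_mul_eq_div, lt_div_iff₀ hs, div_lt_iff₀ hs]
    constructor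
    · rintro ⟨h1, h2⟩; constructor <;> linarith
    · rintro ⟨h1, h2⟩; constructor <;> linarith
  rw [e, cell_eq]
  have h1 := Measure.univ_pi_Ioo_ae_eq_Icc (μ := fun _ : Fin d => (volume : Measure ℝ))
    (f := fun i => s * (z i : ℝ)) (g := fun i => s * ((z i : ℝ) + 1))
  have h2 := Measure.univ_pi_Ico_ae_eq_Icc (μ := fun _ : Fin d => (volume : Measure ℝ))
    (f := fun i => s * (z i : ℝ)) (g := fun i => s * ((z i : ℝ) + 1))
  exact h1.trans h2.symm

/-- the integral over a cell, in the coordinates of the unit cube -/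
theorem cell_integral {d k : ℕ} {s : ℝ} (hs : 0 < s) (z : Fin d → ℤ) (f : E d → ℝ) :
    ∫ x in cell s z, f x = s ^ k * (s ^ d * ∫ y in cube d, up k s z f y) := by
  have h1 := resc_integral (k := k) hs (z := z) (g := (cube d).indicator (up k s z f))
  rw [integral_indicator (isOpen_cube d).measurableSet] at h1
  rw [← h1, ← setIntegral_congr_set (ocell_ae hs z)]
  have hm : MeasurableSet {x : E d | s⁻¹ • (x + -(s • zv z)) ∈ cube d} := by
    refine IsOpen.measurableSet ((isOpen_cube d).preimage ?_)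
    fun_prop
  rw [← integral_indicator hm]
  congr 1
  funext x
  by_cases hx : s⁻¹ • (x + -(s • zv z)) ∈ cube d
  · rw [Set.indicator_of_mem (show x ∈ {x : E d | s⁻¹ • (x + -(s • zv z)) ∈ cube d} from hx)]
    simp only [resc]
    rw [Set.indicator_of_mem hx]
    simp only [up]
    have e : s • (s⁻¹ • (x + -(s • zv z)) + zv z) = x := by
      rw [smul_add, smul_smul, mul_inv_cancel₀ hs.ne', one_smul]; abel
    rw [e]
    have : s ^ k ≠ 0 := (pow_pos hs k).ne'
    field_simp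
  · rw [Set.indicator_of_notMem (show x ∉ {x : E d | s⁻¹ • (x + -(s • zv z)) ∈ cube d} from hx)]
    simp only [resc]
    rw [Set.indicator_of_notMem hx, mul_zero]

/-- the rescaled function belongs to the class of the unit cube if `f` is small on `D` -/
theorem up_mem {d k : ℕ} (hd : 1 ≤ d) {D : Set (E d)} {s : ℝ} (hs : 0 < s)
    {z : Fin d → ℤ} (hz : ccell s z ⊆ interior D) {f : E d → ℝ} (hf : f ∈ smoothClass k D)
    {A h : ℝ} (hA : 0 ≤ A) (hh : 0 ≤ h)
    (hsmall : ∀ x ∈ interior D, ∀ l ≤ k, ‖iteratedFDeriv ℝ l f x‖ ≤ (d:ℝ)^k * (A * h)^(k-l))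
    (hhs : (d:ℝ)^k * (A * h) ≤ s) (hk1 : 1 ≤ k) : up k s z f ∈ smoothClass k (cube d) := by
  have hint : interior (cube d) = cube d := (isOpen_cube d).interior_eq
  have hin : ∀ y ∈ cube d, s • (y + zv z) ∈ interior D := fun y hy =>
    hz (icc_to_ccell hs z (cube_subset_Icc d hy))
  have hfat : ∀ y ∈ cube d, ContDiffAt ℝ k f (s • (y + zv z)) := fun y hy =>
    hf.1.contDiffAt (isOpen_interior.mem_nhds (hin y hy))
  have hdk : (1:ℝ) ≤ (d:ℝ)^k := one_le_pow₀ (by exact_mod_cast hd)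
  have hAh : 0 ≤ A * h := mul_nonneg hA hh
  have hAhs : A * h / s ≤ 1 := by
    rw [div_le_one hs]
    nlinarith
  have key : ∀ m ≤ k, ∀ j : Fin m → Fin d, ∀ y ∈ cube d,
      |iteratedFDeriv ℝ m (up k s z f) y (fun i => Pi.single (j i) 1)| ≤ 1 := by
    intro m hm j y hy
    have e := iter_scale hs.ne' (s ^ k)⁻¹ (zv z) y ((hfat y hy).of_le (by exact_mod_cast hm))
      (fun i => Pi.single (j i) 1)
    have e2 : iteratedFDeriv ℝ m (up k s z f) y (fun i => Pi.single (j i) 1)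
      = (s ^ k)⁻¹ * s ^ m * iteratedFDeriv ℝ m f (s • (y + zv z)) (fun i => Pi.single (j i) 1) := e
    rw [e2]
    rcases Nat.lt_or_ge m k with hlt | hge
    · have h1 : |iteratedFDeriv ℝ m f (s • (y + zv z)) (fun i => Pi.single (j i) 1)|
          ≤ (d:ℝ)^k * (A * h)^(k-m) := (apply_single_le _ j).trans (hsmall _ (hin y hy) m hm)
      have e3 : (s ^ k)⁻¹ * s ^ m = (s ^ (k - m))⁻¹ := by
        have : s ^ k = s ^ (k - m) * s ^ m := by rw [← pow_add]; congr 1; omega
        rw [this]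
        have h1 : s ^ m ≠ 0 := (pow_pos hs m).ne'
        have h2 : s ^ (k - m) ≠ 0 := (pow_pos hs _).ne'
        field_simp
      rw [e3, abs_mul, abs_of_nonneg (by positivity)]
      calc (s ^ (k - m))⁻¹ * |iteratedFDeriv ℝ m f (s • (y + zv z)) (fun i => Pi.single (j i) 1)|
          ≤ (s ^ (k - m))⁻¹ * ((d:ℝ)^k * (A * h)^(k-m)) := by gcongr
        _ = (d:ℝ)^k * (A * h / s)^(k-m) := by rw [div_pow]; ring
        _ ≤ (d:ℝ)^k * (A * h / s)^1 := by
            have : (A * h / s)^(k-m) ≤ (A * h / s)^1 :=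
              pow_le_pow_of_le_one (by positivity) hAhs (by omega)
            gcongr
        _ = ((d:ℝ)^k * (A * h)) / s := by rw [pow_one]; ring
        _ ≤ 1 := by rw [div_le_one hs]; exact hhs
    · have hmk : m = k := le_antisymm hm hge
      subst hmk
      rw [inv_mul_cancel₀ (pow_pos hs m).ne', one_mul]
      exact hf.2.2 m le_rfl j _ (hin y hy)
  refine ⟨?_, ?_, ?_⟩
  · rw [hint]
    refine contDiffOn_const.mul (hf.1.comp ?_ (fun y hy => hin y hy))
    exact ((contDiff_id.add contDiff_const).const_smul s).contDiffOn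
  · intro y hy
    have := key 0 (Nat.zero_le _) (fun i => i.elim0) y hy
    simpa using this
  · rw [hint]
    exact key

end Pool.Agent.Y686.CW
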