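import Pool.Agent.Y686.CW.Up

open scoped ENNReal NNReal Topology
open MeasureTheory Filter Set

namespace Pool.Agent.Y686.CW

open Pool.Agent.Helper228.CkInt

theorem smooth_mul_integrable {d k : ℕ} {D : Set (E d)} (hb : Bornology.IsBounded D)
    (hJ : volume (frontier D) = 0) {ρ : E d → ℝ} (hρ : IntegrableOn ρ D) {f : E d → ℝ}
    (hf : f ∈ smoothClass k D) : IntegrableOn (fun y => ρ y * f y) D := by
  have h1 : IntegrableOn f (interior D) :=
    (smoothClass_integrable hb hJ hf).mono_set interior_subset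
  have h2 : IntegrableOn (fun y => ρ y * f y) (interior D) := by
    refine Integrable.mul_bdd (c := 1) (hρ.mono_set interior_subset) h1.aestronglyMeasurable ?_
    refine (ae_restrict_iff' isOpen_interior.measurableSet).2 (Filter.Eventually.of_forall ?_)
    intro x hx
    exact hf.2.1 x (interior_subset hx)
  exact h2.congr_set_ae (ae_interior hJ)

/-- asymptotic upper bound for the weighted problem under the local John condition -/
theorem upperW_asymp {d k : ℕ} (hd : 1 ≤ d) (hk1 : 1 ≤ k) {D : Set (E d)}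
    (hb : Bornology.IsBounded D) (hJ : volume (frontier D) = 0) (hne : (interior D).Nonempty)
    (hjohn : LocalJohn D) {ρ : E d → ℝ} (hρ : IntegrableOn ρ D) (hC : 0 < C0 d k)
    {c' : ℝ} (hc' : C0 d k * wfun k D ρ < c') :
    ∀ᶠ n : ℕ in atTop, minErrorW D (smoothClass k D) ρ n
      ≤ ENNReal.ofReal (c' * (n:ℝ) ^ (-((k:ℝ)/d))) := by
  classical
  have hd0 : (0:ℝ) < d := by exact_mod_cast hd
  have hk0 : (0:ℝ) < k := by exact_mod_cast hk1
  rw [wfun_eq hd] at hc'
  obtain ⟨r, hr, cJ, hcJ, hcone⟩ := hjohn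
  set p : ℝ := (k:ℝ)/d with hp
  have hp0 : 0 < p := by positivity
  set I : ℝ := ∫ y in D, |ρ y| ^ (1 / (1 + p)) with hI
  have hI0 : 0 ≤ I := integral_nonneg (fun y => Real.rpow_nonneg (abs_nonneg _) _)
  obtain ⟨V, hV0, hV⟩ := gridIdx_card hb
  set A1 : ℝ := (d:ℝ)^k * k + k / cJ with hA1
  have hA10 : 0 < A1 := by positivity
  -- choose `c`
  obtain ⟨c, hc1, hc2⟩ : ∃ c, C0 d k < c ∧ c * I ^ (1 + p) < c' := by
    have h1 : Tendsto (fun c : ℝ => c * I ^ (1 + p)) (𝓝 (C0 d k)) (𝓝 (C0 d k * I ^ (1 + p))) :=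
      tendsto_id.mul_const _
    have h3 : ∀ᶠ c : ℝ in 𝓝[>] (C0 d k), c * I ^ (1 + p) < c' :=
      (h1.eventually (gt_mem_nhds hc')).filter_mono nhdsWithin_le_nhds
    obtain ⟨c, h4, h5⟩ := (h3.and self_mem_nhdsWithin).exists
    exact ⟨c, h5, h4⟩
  have hc0 : 0 < c := hC.trans hc1
  -- choose `θ`
  obtain ⟨θ, hθ, hθ2, hθc⟩ : ∃ θ : ℝ, 0 < θ ∧ θ < 1/2 ∧
      c * I ^ (1 + p) * (1 - 2 * θ) ^ (-p) < c' := by
    have h1 : Tendsto (fun θ : ℝ => c * I ^ (1 + p) * (1 - 2 * θ) ^ (-p)) (𝓝 0)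
        (𝓝 (c * I ^ (1 + p) * (1 - 2 * 0) ^ (-p))) := by
      refine Tendsto.const_mul _ ?_
      refine Tendsto.rpow_const ?_ (Or.inl (by norm_num))
      exact tendsto_const_nhds.sub (tendsto_const_nhds.mul tendsto_id)
    have h2 : c * I ^ (1 + p) * (1 - 2 * 0) ^ (-p) < c' := by simpa using hc2
    have h3 : ∀ᶠ θ : ℝ in 𝓝[>] 0, c * I ^ (1 + p) * (1 - 2 * θ) ^ (-p) < c' :=
      (h1.eventually (gt_mem_nhds h2)).filter_mono nhdsWithin_le_nhds
    have h4 : ∀ᶠ θ : ℝ in 𝓝[>] 0, θ < 1/2 :=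
      (gt_mem_nhds (by norm_num)).filter_mono nhdsWithin_le_nhds
    obtain ⟨θ, ⟨h4, h6⟩, h5⟩ := ((h3.and h4).and self_mem_nhdsWithin).exists
    exact ⟨θ, h5, h6, h4⟩
  have hθ3 : 0 < 1 - 2 * θ := by linarith
  set K : ℝ := (d:ℝ)^k * A1^k * (2 * V / θ) ^ p with hK
  have hK0 : 0 ≤ K := by positivity
  -- choose `ε`
  obtain ⟨ε, hε, hεc⟩ : ∃ ε : ℝ, 0 < ε ∧
      c * (I + ε) ^ (1 + p) * (1 - 2 * θ) ^ (-p) + ε * K < c' := by
    have h1 : Tendsto (fun ε : ℝ => c * (I + ε) ^ (1 + p) * (1 - 2 * θ) ^ (-p) + ε * K) (𝓝 0)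
        (𝓝 (c * (I + 0) ^ (1 + p) * (1 - 2 * θ) ^ (-p) + 0 * K)) := by
      refine Tendsto.add (Tendsto.mul_const _ (Tendsto.const_mul _ ?_)) (tendsto_id.mul_const _)
      exact Tendsto.rpow_const (tendsto_const_nhds.add tendsto_id) (Or.inr (by positivity))
    have h2 : c * (I + 0) ^ (1 + p) * (1 - 2 * θ) ^ (-p) + 0 * K < c' := by simpa using hθc
    have h3 : ∀ᶠ ε : ℝ in 𝓝[>] 0, c * (I + ε) ^ (1 + p) * (1 - 2 * θ) ^ (-p) + ε * K < c' :=
      (h1.eventually (gt_mem_nhds h2)).filter_mono nhdsWithin_le_nhds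
    obtain ⟨ε, h5, h7⟩ := (h3.and self_mem_nhdsWithin).exists
    exact ⟨ε, h7, h5⟩
  obtain ⟨s, hs, hs1, Z, hZ, a, ha1, ha2⟩ := approx hb hJ hρ (q := 1 / (1 + p)) (by positivity)
    (by rw [div_le_one (by positivity)]; linarith) hε
  rw [← hI] at ha2
  set Sg : ℝ := ∑ z ∈ Z, |a z| ^ (1 / (1 + p)) with hSg
  have hSg0 : 0 ≤ Sg := Finset.sum_nonneg (fun z _ => Real.rpow_nonneg (abs_nonneg _) _)
  have hSup : s ^ d * Sg ≤ I + ε := by
    have := (abs_le.1 ha2).1
    linarith
  set Z' : Finset (Fin d → ℤ) := Z.filter (fun z => a z ≠ 0) with hZ'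
  have hZ'mem : ∀ z ∈ Z', z ∈ Z ∧ a z ≠ 0 := fun z hz => Finset.mem_filter.1 hz
  have hSg' : ∑ z ∈ Z', |a z| ^ (1 / (1 + p)) = Sg := by
    rw [hSg, hZ', Finset.sum_filter]
    refine Finset.sum_congr rfl (fun z _ => ?_)
    by_cases h : a z = 0
    · rw [if_neg (not_not.2 h), h, abs_zero, Real.zero_rpow (by positivity)]
    · rw [if_pos h]
  have hSgpos : ∀ z ∈ Z', 0 < Sg := by
    intro z hz
    have h1 : |a z| ^ (1 / (1 + p)) ≤ Sg :=
      Finset.single_le_sum (f := fun z => |a z| ^ (1 / (1 + p)))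
        (fun z _ => Real.rpow_nonneg (abs_nonneg _) _) (hZ'mem z hz).1
    exact (Real.rpow_pos_of_pos (abs_pos.2 (hZ'mem z hz).2) _).trans_le h1
  set β : (Fin d → ℤ) → ℝ := fun z => |a z| ^ (1 / (1 + p)) / Sg with hβ
  have hβ0 : ∀ z, 0 ≤ β z := fun z => div_nonneg (Real.rpow_nonneg (abs_nonneg _) _) hSg0
  have hβpos : ∀ z ∈ Z', 0 < β z := fun z hz =>
    div_pos (Real.rpow_pos_of_pos (abs_pos.2 (hZ'mem z hz).2) _) (hSgpos z hz)
  have hβsum : ∑ z ∈ Z', β z ≤ 1 := by
    rw [hβ, ← Finset.sum_div, hSg']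
    exact div_self_le_one Sg
  set ν : ℕ → (Fin d → ℤ) → ℕ := fun n z => ⌊(1 - θ) * β z * n⌋₊ with hν
  -- the node sets
  have hnodes := cube_nodes hd hk1 hC hc1
  have hlin : ∀ z ∈ Z', Tendsto (fun n : ℕ => (1 - θ) * β z * (n:ℝ)) atTop atTop := fun z hz =>
    tendsto_natCast_atTop_atTop.const_mul_atTop (mul_pos (by linarith) (hβpos z hz))
  have hevZ : ∀ᶠ n : ℕ in atTop, ∀ z ∈ Z', (∃ P : Finset (E d), P.card ≤ ν n z ∧
      (∀ y ∈ P, y ∈ cube d) ∧ ∀ F ∈ smoothClass k (cube d), (∀ y ∈ P, F y = 0) →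
        |∫ y in cube d, F y| ≤ c * (ν n z:ℝ) ^ (-p)) ∧ (1 - 2 * θ) * β z * n ≤ ν n z := by
    rw [Filter.eventually_all_finset]
    intro z hz
    have h1 : Tendsto (fun n : ℕ => ν n z) atTop atTop :=
      tendsto_nat_floor_atTop.comp (hlin z hz)
    have h2 : ∀ᶠ n : ℕ in atTop, 1 / (θ * β z) ≤ (n:ℝ) :=
      tendsto_natCast_atTop_atTop.eventually (eventually_ge_atTop _)
    filter_upwards [h1.eventually hnodes, h2] with n h3 h4
    refine ⟨h3, ?_⟩
    have h5 := Nat.lt_floor_add_one ((1 - θ) * β z * (n:ℝ))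
    rw [div_le_iff₀ (mul_pos hθ (hβpos z hz))] at h4
    have h6 : (ν n z : ℝ) = (⌊(1 - θ) * β z * (n:ℝ)⌋₊ : ℝ) := rfl
    rw [h6]
    nlinarith
  set L : ℝ := 2 * V / θ with hL
  have hL0 : 0 < L := by positivity
  have e1 : ∀ᶠ n : ℕ in atTop, side d L n < min (min 1 (r * cJ / k)) (s / ((d:ℝ)^k * A1)) :=
    (side_tendsto hd L).eventually (gt_mem_nhds (by positivity))
  filter_upwards [hevZ, e1, eventually_ge_atTop 1] with n hevZ e1 hn
  have hn0 : (0:ℝ) < n := by exact_mod_cast hn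
  have hh := side_pos (d := d) hL0 hn
  have hhd : side d L n ^ d = L / n := side_pow hd hL0 n
  have hhk : side d L n ^ k = (L / n) ^ p := side_pow_k k hL0 n
  set h := side d L n with hhdef
  have hh1 : h ≤ 1 := (e1.trans_le ((min_le_left _ _).trans (min_le_left _ _))).le
  have hhr : k * h / cJ ≤ r := by
    have := (e1.trans_le ((min_le_left _ _).trans (min_le_right _ _))).le
    rw [le_div_iff₀ hk0] at this
    rw [div_le_iff₀ hcJ]
    linarith
  have hhs : (d:ℝ)^k * (A1 * h) ≤ s := by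
    have := (e1.trans_le (min_le_right _ _)).le
    rw [le_div_iff₀ (by positivity)] at this
    linarith
  -- background grid
  set Gd : Finset (Fin d → ℤ) := (gridIdx_finite hb hh).toFinset with hGd
  have hGdmem : ∀ b, b ∈ Gd ↔ h • zv b ∈ interior D := fun b => by
    rw [hGd, Set.Finite.mem_toFinset]; rfl
  have hGdcard : (Gd.card : ℝ) ≤ θ / 2 * n := by
    have h1 := hV h hh hh1
    rw [← hGd, hhd, hL] at h1
    rw [div_div, ← mul_div_assoc, div_le_iff₀ (by positivity)] at h1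
    have h2 : (Gd.card : ℝ) * (2 * V) ≤ V * (θ * n) := h1
    have h3 : (Gd.card : ℝ) * 2 ≤ θ * n := by
      have : V * ((Gd.card : ℝ) * 2) ≤ V * (θ * n) := by linarith
      exact le_of_mul_le_mul_left this hV0
    linarith
  choose! P hPc hPcube hPint using fun z (hz : z ∈ Z') => (hevZ z hz).1
  have hνlow : ∀ z ∈ Z', (1 - 2 * θ) * β z * n ≤ ν n z := fun z hz => (hevZ z hz).2
  set X : Finset (E d) := Gd.image (fun b => h • zv b)
    ∪ Z'.biUnion (fun z => (P z).image (fun y => s • (y + zv z))) with hX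
  have hXcard : X.card ≤ n := by
    have a1 : X.card ≤ Gd.card + ∑ z ∈ Z', ν n z := by
      refine (Finset.card_union_le _ _).trans (add_le_add Finset.card_image_le ?_)
      refine Finset.card_biUnion_le.trans (Finset.sum_le_sum (fun z hz => ?_))
      exact Finset.card_image_le.trans (hPc z hz)
    have a2 : ((Gd.card + ∑ z ∈ Z', ν n z : ℕ) : ℝ) ≤ n := by
      push_cast
      have a3 : ∑ z ∈ Z', (ν n z : ℝ) ≤ (1 - θ) * n := by
        calc ∑ z ∈ Z', (ν n z : ℝ) ≤ ∑ z ∈ Z', (1 - θ) * β z * n := by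
              refine Finset.sum_le_sum (fun z _ => Nat.floor_le ?_)
              have := hβ0 z
              have : 0 ≤ 1 - θ := by linarith
              positivity
          _ = (1 - θ) * n * ∑ z ∈ Z', β z := by
              rw [Finset.mul_sum]; exact Finset.sum_congr rfl (fun z _ => by ring)
          _ ≤ (1 - θ) * n * 1 := by
              refine mul_le_mul_of_nonneg_left hβsum ?_
              have : 0 ≤ 1 - θ := by linarith
              positivity
          _ = (1 - θ) * n := mul_one _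
      have a4 : 0 ≤ θ / 2 * n := by positivity
      linarith
    exact a1.trans (by exact_mod_cast a2)
  have hXD : ∀ x ∈ X, x ∈ D := by
    intro x hx
    rw [hX, Finset.mem_union, Finset.mem_image, Finset.mem_biUnion] at hx
    rcases hx with ⟨b, hb, rfl⟩ | ⟨z, hz, hx⟩
    · exact interior_subset ((hGdmem b).1 hb)
    · obtain ⟨y, hy, rfl⟩ := Finset.mem_image.1 hx
      exact interior_subset (hZ z (hZ'mem z hz).1
        (icc_to_ccell hs z (cube_subset_Icc d (hPcube z hz y hy))))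
  refine upper_radiusW (hne.mono interior_subset)
    (fun f hf => smooth_mul_integrable hb hJ hρ hf)
    (fun f hf g hg => smoothClass_half_sub hf hg) X hXcard hXD (fun f hf hfX => ?_)
  -- smallness
  have hsm : ∀ x ∈ interior D, ∀ l ≤ k, ‖iteratedFDeriv ℝ l f x‖ ≤ (d:ℝ)^k * (A1 * h)^(k-l) := by
    intro x hx l hl
    refine background_small hd hk1 hcJ hcone hh hhr hf (fun b hb => ?_) hx hl
    refine hfX _ ?_
    rw [hX, Finset.mem_union]
    left
    exact Finset.mem_image_of_mem (fun b => h • zv b) ((hGdmem b).2 hb)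
  set B : ℝ := (d:ℝ)^k * (A1 * h)^k with hB
  have hB0 : 0 ≤ B := by positivity
  have hfB : ∀ x ∈ interior D, |f x| ≤ B := by
    intro x hx
    have := hsm x hx 0 (Nat.zero_le _)
    rwa [norm_iteratedFDeriv_zero, Real.norm_eq_abs, Nat.sub_zero] at this
  have hfi : IntegrableOn f (interior D) :=
    (smoothClass_integrable hb hJ hf).mono_set interior_subset
  have hfae : ∀ᵐ x ∂(volume.restrict (interior D)), ‖f x‖ ≤ B :=
    (ae_restrict_iff' isOpen_interior.measurableSet).2 (Filter.Eventually.of_forall hfB)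
  -- cell integrals
  have hcell : ∀ z ∈ Z', |∫ x in cell s z, f x| ≤ s ^ k * (s ^ d * (c * (ν n z:ℝ) ^ (-p))) := by
    intro z hz
    rw [cell_integral (k := k) hs z f, abs_mul, abs_mul, abs_of_nonneg (by positivity : 0 ≤ s ^ k),
      abs_of_nonneg (by positivity : 0 ≤ s ^ d)]
    have h1 := hPint z hz (up k s z f) (up_mem hd hs (hZ z (hZ'mem z hz).1) hf hA10.le hh.le hsm
      hhs hk1) (fun y hy => by
        have : s • (y + zv z) ∈ X := by
          rw [hX, Finset.mem_union]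
          right
          exact Finset.mem_biUnion.2 ⟨z, hz, Finset.mem_image_of_mem (fun y => s • (y + zv z)) hy⟩
        show (s ^ k)⁻¹ * f (s • (y + zv z)) = 0
        rw [hfX _ this, mul_zero])
    gcongr
  have hstep : IntegrableOn (fun x : E d => stepF s Z a x) (interior D) :=
    (comp_stepF_integrable hs (fun t => t) rfl).integrableOn
  have hρi : IntegrableOn ρ (interior D) := hρ.mono_set interior_subset
  have hstepI : IntegrableOn (fun y => stepF s Z a y * f y) (interior D) :=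
    Integrable.mul_bdd (c := B) hstep hfi.aestronglyMeasurable hfae
  have hdiff : IntegrableOn (fun y => ρ y - stepF s Z a y) (interior D) := hρi.sub hstep
  have hdiffI : IntegrableOn (fun y => (ρ y - stepF s Z a y) * f y) (interior D) :=
    Integrable.mul_bdd (c := B) hdiff hfi.aestronglyMeasurable hfae
  have h0 : ∫ y in D, ρ y * f y = ∫ y in interior D, ρ y * f y :=
    setIntegral_congr_set (ae_interior hJ)
  have h2 : ∫ y in interior D, ρ y * f y = (∫ y in interior D, stepF s Z a y * f y)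
      + ∫ y in interior D, (ρ y - stepF s Z a y) * f y := by
    rw [← integral_add hstepI hdiffI]
    congr 1; funext y; ring
  have h3 : ∫ y in interior D, (ρ y - stepF s Z a y) * f y ≤ ε * B := by
    have h5 : ∫ y in interior D, (ρ y - stepF s Z a y) * f y
        ≤ ∫ y in interior D, |ρ y - stepF s Z a y| * B := by
      refine setIntegral_mono_on hdiffI (hdiff.abs.mul_const _) isOpen_interior.measurableSet
        (fun y hy => ?_)
      refine (le_abs_self _).trans ?_
      rw [abs_mul]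
      exact mul_le_mul_of_nonneg_left (hfB y hy) (abs_nonneg _)
    refine h5.trans ?_
    rw [integral_mul_const]
    have h6 : ∫ y in interior D, |ρ y - stepF s Z a y| ≤ ε := by
      rw [← setIntegral_congr_set (ae_interior hJ)]
      exact ha1
    exact mul_le_mul_of_nonneg_right h6 hB0
  have h4 : ∫ y in interior D, stepF s Z a y * f y = ∑ z ∈ Z', a z * ∫ x in cell s z, f x := by
    have e2 : (fun y => stepF s Z a y * f y)
        = fun y => ∑ z ∈ Z, a z * (cell s z).indicator f y := by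
      funext y
      by_cases hy : idx s y ∈ Z
      · rw [stepF_mem hy, Finset.sum_eq_single_of_mem _ hy]
        · rw [Set.indicator_of_mem ((mem_cell_iff hs).2 rfl)]
        · intro z _ hz
          rw [Set.indicator_of_notMem, mul_zero]
          intro h2
          exact hz ((mem_cell_iff hs).1 h2).symm
      · rw [stepF_notMem hy, zero_mul]
        refine (Finset.sum_eq_zero (fun z hz => ?_)).symm
        rw [Set.indicator_of_notMem, mul_zero]
        intro h2
        exact hy (((mem_cell_iff hs).1 h2) ▸ hz)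
    have hcellsub : ∀ z ∈ Z, cell s z ⊆ interior D := fun z hz =>
      (cell_subset_ccell s z).trans (hZ z hz)
    rw [e2, integral_finsetSum]
    · rw [hZ', Finset.sum_filter]
      refine Finset.sum_congr rfl (fun z hz => ?_)
      rw [integral_const_mul, setIntegral_indicator (measurableSet_cell s z),
        Set.inter_eq_right.2 (hcellsub z hz)]
      by_cases h : a z = 0
      · rw [if_neg (not_not.2 h), h, zero_mul]
      · rw [if_pos h]
    · intro z hz
      exact (hfi.indicator (measurableSet_cell s z)).const_mul _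
  have h5 : ∑ z ∈ Z', a z * ∫ x in cell s z, f x
      ≤ c * (I + ε) ^ (1 + p) * (1 - 2 * θ) ^ (-p) * (n:ℝ) ^ (-p) := by
    have h6 : ∀ z ∈ Z', a z * ∫ x in cell s z, f x ≤ (s ^ k * s ^ d * c
        * ((1 - 2 * θ) ^ (-p) * (n:ℝ) ^ (-p)) * Sg ^ p) * |a z| ^ (1 / (1 + p)) := by
      intro z hz
      have haz : 0 < |a z| := abs_pos.2 (hZ'mem z hz).2
      have hS := hSgpos z hz
      have hβz := hβpos z hz
      have h7 : (ν n z:ℝ) ^ (-p) ≤ ((1 - 2 * θ) * β z * n) ^ (-p) :=
        Real.rpow_le_rpow_of_nonpos (by positivity) (hνlow z hz) (by linarith)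
      have h8 : |a z| * (β z) ^ (-p) = |a z| ^ (1 / (1 + p)) * Sg ^ p := by
        set t := |a z| ^ (1 / (1 + p)) with ht
        have ht0 : 0 < t := Real.rpow_pos_of_pos haz _
        have hat : |a z| = t ^ (1 + p) := by
          rw [ht, ← Real.rpow_mul haz.le, one_div, inv_mul_cancel₀ (by positivity), Real.rpow_one]
        have hβt : β z = t / Sg := rfl
        rw [hat, hβt, Real.div_rpow ht0.le hS.le, Real.rpow_add ht0, Real.rpow_one,
          Real.rpow_neg ht0.le, Real.rpow_neg hS.le]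
        have h9 : t ^ p ≠ 0 := (Real.rpow_pos_of_pos ht0 p).ne'
        have h10 : Sg ^ p ≠ 0 := (Real.rpow_pos_of_pos hS p).ne'
        field_simp
      calc a z * ∫ x in cell s z, f x ≤ |a z| * |∫ x in cell s z, f x| := by
            rw [← abs_mul]; exact le_abs_self _
        _ ≤ |a z| * (s ^ k * (s ^ d * (c * (ν n z:ℝ) ^ (-p)))) := by
            have := hcell z hz
            gcongr
        _ ≤ |a z| * (s ^ k * (s ^ d * (c * ((1 - 2 * θ) * β z * n) ^ (-p)))) := by gcongr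
        _ = (s ^ k * s ^ d * c * ((1 - 2 * θ) ^ (-p) * (n:ℝ) ^ (-p))) * (|a z| * (β z) ^ (-p)) := by
            rw [Real.mul_rpow (by positivity) hn0.le, Real.mul_rpow hθ3.le hβz.le]; ring
        _ = _ := by rw [h8]; ring
    refine (Finset.sum_le_sum h6).trans ?_
    rw [← Finset.mul_sum, hSg']
    have h7 : Sg ^ p * Sg = Sg ^ (1 + p) := by
      rcases eq_or_lt_of_le hSg0 with h | h
      · rw [← h, mul_zero, Real.zero_rpow (by positivity)]
      · rw [Real.rpow_add h, Real.rpow_one, mul_comm]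
    calc s ^ k * s ^ d * c * ((1 - 2 * θ) ^ (-p) * (n:ℝ) ^ (-p)) * Sg ^ p * Sg
        = c * ((s ^ k * s ^ d) * Sg ^ (1 + p)) * (1 - 2 * θ) ^ (-p) * (n:ℝ) ^ (-p) := by
          rw [← h7]; ring
      _ = c * (s ^ d * Sg) ^ (1 + p) * (1 - 2 * θ) ^ (-p) * (n:ℝ) ^ (-p) := by
          rw [pow_dk hd hs, Real.mul_rpow (by positivity) hSg0]
      _ ≤ c * (I + ε) ^ (1 + p) * (1 - 2 * θ) ^ (-p) * (n:ℝ) ^ (-p) := by gcongr
  have h6 : ε * B = ε * K * (n:ℝ) ^ (-p) := by
    rw [hB, hK, mul_pow, hhk, Real.div_rpow hL0.le hn0.le, Real.rpow_neg hn0.le]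
    ring
  rw [h0, h2, h4]
  have h7 : (c * (I + ε) ^ (1 + p) * (1 - 2 * θ) ^ (-p) + ε * K) * (n:ℝ) ^ (-p)
      ≤ c' * (n:ℝ) ^ (-p) := mul_le_mul_of_nonneg_right hεc.le (Real.rpow_nonneg hn0.le _)
  rw [add_mul] at h7
  linarith

end Pool.Agent.Y686.CW
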